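import Mathlib

namespace Pool.Agent.Helper123.PLP

open Finset

/-- points, lines and planes of a finite linear space with planes -/
structure Geo (P : Type*) [Fintype P] [DecidableEq P] where
  L : Finset (Finset P)
  H : Finset (Finset P)
  two_le : ∀ l ∈ L, 2 ≤ l.card
  ex_line : ∀ x y : P, x ≠ y → ∃ l ∈ L, x ∈ l ∧ y ∈ l
  uniq_line : ∀ l ∈ L, ∀ l' ∈ L, ∀ x y : P, x ≠ y → x ∈ l → y ∈ l → x ∈ l' → y ∈ l' → l = l'
  ex_plane : ∀ l ∈ L, ∀ x, x ∉ l → ∃ h ∈ H, l ⊆ h ∧ x ∈ h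
  uniq_plane : ∀ l ∈ L, ∀ x, x ∉ l → ∀ h ∈ H, ∀ h' ∈ H,
    l ⊆ h → x ∈ h → l ⊆ h' → x ∈ h' → h = h'
  closed : ∀ h ∈ H, ∀ l ∈ L, ∀ x y : P, x ≠ y → x ∈ l → y ∈ l → x ∈ h → y ∈ h → l ⊆ h
  nondeg : ∀ h ∈ H, ∃ l ∈ L, l ⊆ h ∧ ∃ x ∈ h, x ∉ l

set_option linter.unusedSectionVars false

variable {P : Type*} [Fintype P] [DecidableEq P] (G : Geo P)

def Geo.Lv (v : P) : Finset (Finset P) := G.L.filter (fun l => v ∈ l)
def Geo.Hv (v : P) : Finset (Finset P) := G.H.filter (fun h => v ∈ h)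
/-- lines inside `h` avoiding `v` -/
def Geo.Nf (v : P) (h : Finset P) : Finset (Finset P) := G.L.filter (fun l => l ⊆ h ∧ v ∉ l)
/-- lines of `X` inside `h` -/
def inn (X : Finset (Finset P)) (h : Finset P) : Finset (Finset P) := X.filter (fun l => l ⊆ h)

/-- number of points minus one -/
noncomputable def bb (l : Finset P) : ℝ := (l.card : ℝ) - 1

lemma Geo.mem_Lv {v : P} {l : Finset P} : l ∈ G.Lv v ↔ l ∈ G.L ∧ v ∈ l := by
  simp [Geo.Lv]
lemma Geo.mem_Hv {v : P} {l : Finset P} : l ∈ G.Hv v ↔ l ∈ G.H ∧ v ∈ l := by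
  simp [Geo.Hv]
lemma Geo.mem_Nf {v : P} {h l : Finset P} : l ∈ G.Nf v h ↔ l ∈ G.L ∧ l ⊆ h ∧ v ∉ l := by
  simp [Geo.Nf]
lemma mem_inn {X : Finset (Finset P)} {h l : Finset P} : l ∈ inn X h ↔ l ∈ X ∧ l ⊆ h := by
  simp [inn]

lemma Geo.bb_ge {l : Finset P} (hl : l ∈ G.L) : 1 ≤ bb l := by
  have := G.two_le l hl
  have : (2 : ℝ) ≤ l.card := by exact_mod_cast this
  unfold bb; linarith

lemma Geo.sum_bb (S : Finset P) (hS : ∀ l ∈ G.L, ∀ x y : P, x ≠ y → x ∈ l → y ∈ l →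
    x ∈ S → y ∈ S → l ⊆ S) (v : P) (hv : v ∈ S) :
    ∑ l ∈ inn (G.Lv v) S, bb l = (S.card : ℝ) - 1 := by
  have h1 : S.erase v = (inn (G.Lv v) S).biUnion (fun l => l.erase v) := by
    ext x
    simp only [mem_erase, mem_biUnion, mem_inn, G.mem_Lv]
    constructor
    · rintro ⟨hx, hxS⟩
      obtain ⟨l, hl, hvl, hxl⟩ := G.ex_line v x (Ne.symm hx)
      exact ⟨l, ⟨⟨hl, hvl⟩, hS l hl v x (Ne.symm hx) hvl hxl hv hxS⟩, hx, hxl⟩
    · rintro ⟨l, ⟨⟨hl, hvl⟩, hlS⟩, hx, hxl⟩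
      exact ⟨hx, hlS hxl⟩
  have h2 : (S.erase v).card = ∑ l ∈ inn (G.Lv v) S, (l.erase v).card := by
    rw [h1]
    apply card_biUnion
    intro l hl l' hl' hne
    change Disjoint (l.erase v) (l'.erase v)
    rw [Finset.disjoint_left]
    intro x hx hx'
    simp only [mem_erase] at hx hx'
    simp only [mem_coe, mem_inn, G.mem_Lv] at hl hl'
    exact hne (G.uniq_line l hl.1.1 l' hl'.1.1 x v hx.1 hx.2 hl.1.2 hx'.2 hl'.1.2)
  have h3 : ((S.erase v).card : ℝ) = (S.card : ℝ) - 1 := by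
    rw [card_erase_of_mem hv, Nat.cast_sub (card_pos.mpr ⟨v, hv⟩)]; simp
  rw [← h3, h2, Nat.cast_sum]
  apply sum_congr rfl
  intro l hl
  simp only [mem_inn, G.mem_Lv] at hl
  rw [card_erase_of_mem hl.1.2, Nat.cast_sub (card_pos.mpr ⟨v, hl.1.2⟩)]
  simp [bb]

lemma inn_univ (X : Finset (Finset P)) : inn X univ = X := by
  unfold inn; simp

lemma Geo.sum_bb_univ (v : P) : ∑ l ∈ G.Lv v, bb l = (Fintype.card P : ℝ) - 1 := by
  have := G.sum_bb univ (by intros; exact subset_univ _) v (mem_univ v)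
  rwa [inn_univ, card_univ] at this

lemma Geo.sum_bb_plane {h : Finset P} (hh : h ∈ G.H) (v : P) (hv : v ∈ h) :
    ∑ l ∈ inn (G.Lv v) h, bb l = (h.card : ℝ) - 1 :=
  G.sum_bb h (G.closed h hh) v hv

lemma Geo.plane_two_lines {v : P} {j j' : Finset P} (hj : j ∈ G.Lv v) (hj' : j' ∈ G.Lv v)
    (hne : j ≠ j') : ((G.Hv v).filter (fun h => j ⊆ h ∧ j' ⊆ h)).card = 1 := by
  rw [G.mem_Lv] at hj hj'
  -- a point of j' other than v
  obtain ⟨x, hx, hxv⟩ : ∃ x ∈ j', x ≠ v := by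
    have := G.two_le j' hj'.1
    obtain ⟨x, hx, hxv⟩ := Finset.exists_mem_ne (by omega : 1 < j'.card) v
    exact ⟨x, hx, hxv⟩
  have hxj : x ∉ j := fun hxj =>
    hne (G.uniq_line j hj.1 j' hj'.1 x v hxv hxj hj.2 hx hj'.2)
  obtain ⟨h, hh, hjh, hxh⟩ := G.ex_plane j hj.1 x hxj
  have hvh : v ∈ h := hjh hj.2
  have hj'h : j' ⊆ h := G.closed h hh j' hj'.1 x v hxv hx hj'.2 hxh hvh
  rw [card_eq_one]
  refine ⟨h, ?_⟩
  ext k
  simp only [mem_filter, G.mem_Hv, mem_singleton]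
  constructor
  · rintro ⟨⟨hk, hvk⟩, hjk, hj'k⟩
    exact G.uniq_plane j hj.1 x hxj k hk h hh hjk (hj'k hx) hjh hxh
  · rintro rfl
    exact ⟨⟨hh, hvh⟩, hjh, hj'h⟩

lemma prod_sub_diag {β : Type*} [DecidableEq β] (X Y : Finset β) (w1 w2 : β → ℝ) :
    (∑ j ∈ X, w1 j) * (∑ j ∈ Y, w2 j) - ∑ j ∈ X ∩ Y, w1 j * w2 j =
      ∑ j ∈ X, ∑ j' ∈ Y, (if j = j' then 0 else w1 j * w2 j') := by
  have h1 : ∑ j ∈ X, ∑ j' ∈ Y, (if j = j' then 0 else w1 j * w2 j') =
      ∑ j ∈ X, ∑ j' ∈ Y, (w1 j * w2 j' - (if j = j' then w1 j * w2 j' else 0)) := by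
    apply sum_congr rfl; intro j _; apply sum_congr rfl; intro j' _
    split_ifs <;> simp
  rw [h1]
  simp only [sum_sub_distrib]
  rw [sum_mul_sum]
  congr 1
  have h2 : ∀ j ∈ X, ∑ j' ∈ Y, (if j = j' then w1 j * w2 j' else 0) =
      if j ∈ Y then w1 j * w2 j else 0 := by
    intro j _
    rw [sum_ite_eq]
  rw [sum_congr rfl h2, ← sum_filter, Finset.filter_mem_eq_inter]

lemma Geo.pairs (v : P) (X Y : Finset (Finset P)) (hX : X ⊆ G.Lv v) (hY : Y ⊆ G.Lv v)
    (w1 w2 : Finset P → ℝ) :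
    ∑ h ∈ G.Hv v, ((∑ j ∈ inn X h, w1 j) * (∑ j ∈ inn Y h, w2 j)
      - ∑ j ∈ inn (X ∩ Y) h, w1 j * w2 j) =
    (∑ j ∈ X, w1 j) * (∑ j ∈ Y, w2 j) - ∑ j ∈ X ∩ Y, w1 j * w2 j := by
  have e1 : ∀ h, inn (X ∩ Y) h = inn X h ∩ inn Y h := by
    intro h
    unfold inn
    rw [Finset.filter_inter_distrib]
  rw [prod_sub_diag X Y]
  have e2 : ∀ h ∈ G.Hv v, ((∑ j ∈ inn X h, w1 j) * (∑ j ∈ inn Y h, w2 j)
      - ∑ j ∈ inn (X ∩ Y) h, w1 j * w2 j) =
      ∑ j ∈ X, ∑ j' ∈ Y, (if j ⊆ h ∧ j' ⊆ h then (if j = j' then 0 else w1 j * w2 j') else 0) := by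
    intro h _
    rw [e1, prod_sub_diag]
    unfold inn
    rw [sum_filter]
    apply sum_congr rfl
    intro j _
    rw [sum_filter]
    by_cases hj : j ⊆ h
    · simp only [hj, if_true, true_and]
    · simp only [hj, if_false, false_and]
      simp
  rw [sum_congr rfl e2, sum_comm]
  apply sum_congr rfl
  intro j hj
  rw [sum_comm]
  apply sum_congr rfl
  intro j' hj'
  rw [← sum_filter]
  by_cases hjj : j = j'
  · simp [hjj]
  · simp only [hjj, if_false]
    rw [sum_const, G.plane_two_lines (hX hj) (hY hj') hjj]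
    simp

lemma Geo.sum_Nf (v : P) : ∑ h ∈ G.Hv v, ((G.Nf v h).card : ℝ) ≤ (G.L.card : ℝ) := by
  rw [← Nat.cast_sum]
  have h1 : ((G.Hv v).biUnion (fun h => G.Nf v h)).card = ∑ h ∈ G.Hv v, (G.Nf v h).card := by
    apply card_biUnion
    intro h hh h' hh' hne
    change Disjoint (G.Nf v h) (G.Nf v h')
    rw [Finset.disjoint_left]
    intro l hl hl'
    rw [G.mem_Nf] at hl hl'
    rw [mem_coe, G.mem_Hv] at hh hh'
    exact hne (G.uniq_plane l hl.1 v hl.2.2 h hh.1 h' hh'.1 hl.2.1 hh.2 hl'.2.1 hh'.2)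
  rw [← h1]
  have : (G.Hv v).biUnion (fun h => G.Nf v h) ⊆ G.L := by
    intro l hl
    simp only [mem_biUnion, G.mem_Nf] at hl
    obtain ⟨_, _, hl, _⟩ := hl
    exact hl
  exact_mod_cast card_le_card this

/-- de Bruijn-Erdos in a plane -/
lemma Geo.dBE {h : Finset P} (hh : h ∈ G.H) : h.card ≤ (inn G.L h).card := by
  classical
  obtain ⟨l0, hl0, hl0h, x0, hx0, hx0l⟩ := G.nondeg h hh
  let P' := {x : P // x ∈ h}
  let L' := {l : Finset P // l ∈ inn G.L h}
  let _ : Membership P' L' := ⟨fun l p => (p : P) ∈ (l : Finset P)⟩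
  have memdef : ∀ (p : P') (l : L'), p ∈ l ↔ (p : P) ∈ (l : Finset P) := fun _ _ => Iff.rfl
  have hL' : ∀ l : L', (l : Finset P) ∈ G.L ∧ (l : Finset P) ⊆ h := fun l => mem_inn.mp l.2
  have mk : ∀ p q : P', p ≠ q → ∃ l : L', p ∈ l ∧ q ∈ l := by
    intro p q hpq
    have hpq' : (p : P) ≠ q := fun h => hpq (Subtype.ext h)
    obtain ⟨l, hl, hp, hq⟩ := G.ex_line p q hpq'
    exact ⟨⟨l, mem_inn.mpr ⟨hl, G.closed h hh l hl p q hpq' hp hq p.2 q.2⟩⟩, hp, hq⟩
  let _ : Configuration.HasLines P' L' :=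
    { exists_point := by
        intro l
        by_contra hcon
        push Not at hcon
        have hsub : l0 ⊆ (l : Finset P) := fun y hy => (memdef _ _).mp (hcon ⟨y, hl0h hy⟩)
        obtain ⟨y, hy, z, hz, hyz⟩ := Finset.one_lt_card.mp (by have := G.two_le l0 hl0; omega : 1 < l0.card)
        have := G.uniq_line l0 hl0 l (hL' l).1 y z hyz hy hz (hsub hy) (hsub hz)
        apply hx0l
        rw [this]
        exact (memdef _ _).mp (hcon ⟨x0, hx0⟩)
      exists_line := by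
        intro p
        by_cases hp : (p : P) ∈ l0
        · obtain ⟨q, hq, hqp⟩ := Finset.exists_mem_ne (by have := G.two_le l0 hl0; omega : 1 < l0.card) (p : P)
          have hxq : x0 ≠ q := fun h => hx0l (h ▸ hq)
          obtain ⟨l, hl, hxl, hql⟩ := G.ex_line x0 q hxq
          refine ⟨⟨l, mem_inn.mpr ⟨hl, G.closed h hh l hl x0 q hxq hxl hql hx0 (hl0h hq)⟩⟩, ?_⟩
          intro hpl
          have hpl' : (p : P) ∈ l := (memdef _ _).mp hpl
          have := G.uniq_line l hl l0 hl0 q p hqp hql hpl' hq hp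
          exact hx0l (this ▸ hxl)
        · exact ⟨⟨l0, mem_inn.mpr ⟨hl0, hl0h⟩⟩, hp⟩
      eq_or_eq := by
        intro p1 p2 l1 l2 h11 h21 h12 h22
        by_cases hp : p1 = p2
        · left; exact hp
        · right
          apply Subtype.ext
          exact G.uniq_line l1 (hL' l1).1 l2 (hL' l2).1 p1 p2 (fun h => hp (Subtype.ext h))
            h11 h21 h12 h22
      mkLine := fun {p q} hpq => Classical.choose (mk p q hpq)
      mkLine_ax := fun {p q} hpq => Classical.choose_spec (mk p q hpq) }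
  have := Configuration.HasLines.card_le P' L'
  rw [Fintype.card_coe, Fintype.card_coe] at this
  exact this

lemma Geo.card_inn_L (v : P) (h : Finset P) :
    (inn G.L h).card = (G.Nf v h).card + (inn (G.Lv v) h).card := by
  rw [← card_union_of_disjoint]
  · congr 1
    ext l
    simp only [mem_inn, mem_union, G.mem_Nf, G.mem_Lv]
    tauto
  · rw [Finset.disjoint_left]
    intro l hl hl'
    simp only [mem_inn, G.mem_Nf, G.mem_Lv] at hl hl'
    exact hl.2.2 hl'.1.2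

lemma Geo.F2 {h : Finset P} {v : P} (hh : h ∈ G.Hv v) :
    1 + ∑ j ∈ inn (G.Lv v) h, (bb j - 1) ≤ ((G.Nf v h).card : ℝ) := by
  rw [G.mem_Hv] at hh
  have h1 := G.sum_bb_plane hh.1 v hh.2
  have h2 := G.dBE hh.1
  rw [G.card_inn_L v h] at h2
  have h3 : (h.card : ℝ) ≤ (G.Nf v h).card + (inn (G.Lv v) h).card := by exact_mod_cast h2
  rw [sum_sub_distrib, h1]
  simp only [sum_const, nsmul_eq_mul, mul_one]
  linarith

lemma Geo.F2' {h j : Finset P} {v : P} (hh : h ∈ G.Hv v) (hj : j ∈ inn (G.Lv v) h) :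
    bb j ≤ ((G.Nf v h).card : ℝ) := by
  have h1 := G.F2 hh
  have h2 : bb j - 1 ≤ ∑ j ∈ inn (G.Lv v) h, (bb j - 1) := by
    apply single_le_sum (f := fun j => bb j - 1) _ hj
    intro i hi
    rw [mem_inn, G.mem_Lv] at hi
    have := G.bb_ge hi.1.1
    linarith
  linarith

/-- the count of lines joining `j ∖ v` to the rest of the plane -/
lemma Geo.F3 {h j : Finset P} {v : P} (hh : h ∈ G.Hv v) (hj : j ∈ inn (G.Lv v) h) :
    (bb j) ^ 2 * ((h.card : ℝ) - j.card) ≤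
      ((G.Nf v h).card : ℝ) * (bb j + ((h.card : ℝ) - j.card) - 1) := by
  classical
  rw [G.mem_Hv] at hh
  rw [mem_inn, G.mem_Lv] at hj
  obtain ⟨hhH, hvh⟩ := hh
  obtain ⟨⟨hjL, hvj⟩, hjh⟩ := hj
  set R : Finset P := h \ j with hR
  set J : Finset P := j.erase v with hJ
  have hRc : (R.card : ℝ) = (h.card : ℝ) - j.card := by
    rw [hR, card_sdiff_of_subset hjh, Nat.cast_sub (card_le_card hjh)]
  have hJc : (J.card : ℝ) = bb j := by
    rw [hJ, card_erase_of_mem hvj, Nat.cast_sub (card_pos.mpr ⟨v, hvj⟩)]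
    simp [bb]
  rw [← hRc, ← hJc]
  set N := G.Nf v h with hN
  -- number of points of J on a line of N is at most one
  have hone : ∀ l ∈ N, (l ∩ J).card ≤ 1 := by
    intro l hl
    rw [hN, G.mem_Nf] at hl
    rw [Finset.card_le_one]
    intro x hx y hy
    by_contra hxy
    simp only [mem_inter, hJ, mem_erase] at hx hy
    have := G.uniq_line l hl.1 j hjL x y hxy hx.1 hy.1 hx.2.2 hy.2.2
    exact hl.2.2 (this ▸ hvj)
  -- sum of products
  have hcnt : ∀ (A : Finset P) (l : Finset P), ((l ∩ A).card : ℝ) = ∑ x ∈ A, (if x ∈ l then 1 else 0) := by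
    intro A l
    rw [← sum_filter, sum_const, nsmul_eq_mul, mul_one, inter_comm]
    rw [Finset.filter_mem_eq_inter]
  have hs1 : ∑ l ∈ N, ((l ∩ J).card : ℝ) * ((l ∩ R).card : ℝ) = (J.card : ℝ) * R.card := by
    have e1 : ∀ l ∈ N, ((l ∩ J).card : ℝ) * ((l ∩ R).card : ℝ) =
        ∑ z ∈ J, ∑ x ∈ R, (if z ∈ l ∧ x ∈ l then (1 : ℝ) else 0) := by
      intro l _
      rw [hcnt, hcnt, sum_mul_sum]
      apply sum_congr rfl; intro z _; apply sum_congr rfl; intro x _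
      by_cases h1 : z ∈ l <;> by_cases h2 : x ∈ l <;> simp [h1, h2]
    rw [sum_congr rfl e1, sum_comm]
    have e2 : ∀ z ∈ J, ∑ l ∈ N, ∑ x ∈ R, (if z ∈ l ∧ x ∈ l then (1 : ℝ) else 0) = R.card := by
      intro z hz
      rw [sum_comm]
      have e3 : ∀ x ∈ R, ∑ l ∈ N, (if z ∈ l ∧ x ∈ l then (1 : ℝ) else 0) = 1 := by
        intro x hx
        simp only [hJ, mem_erase] at hz
        simp only [hR, mem_sdiff] at hx
        have hxz : x ≠ z := fun h => hx.2 (h ▸ hz.2)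
        obtain ⟨l0, hl0, hxl0, hzl0⟩ := G.ex_line x z hxz
        have hl0h : l0 ⊆ h := G.closed h hhH l0 hl0 x z hxz hxl0 hzl0 hx.1 (hjh hz.2)
        have hvl0 : v ∉ l0 := by
          intro hvl0
          have := G.uniq_line l0 hl0 j hjL z v hz.1 hzl0 hvl0 hz.2 hvj
          exact hx.2 (this ▸ hxl0)
        rw [← sum_filter, sum_const, nsmul_eq_mul, mul_one]
        have : N.filter (fun l => z ∈ l ∧ x ∈ l) = {l0} := by
          ext l
          simp only [mem_filter, hN, G.mem_Nf, mem_singleton]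
          constructor
          · rintro ⟨⟨hl, _, _⟩, hzl, hxl⟩
            exact G.uniq_line l hl l0 hl0 x z hxz hxl hzl hxl0 hzl0
          · rintro rfl
            exact ⟨⟨hl0, hl0h, hvl0⟩, hzl0, hxl0⟩
        rw [this]; simp
      rw [sum_congr rfl e3]; simp
    rw [sum_congr rfl e2]; simp
  have hs2 : ∑ l ∈ N, (((l ∩ R).card : ℝ) * ((l ∩ R).card : ℝ) - ((l ∩ R).card : ℝ)) ≤
      (R.card : ℝ) * R.card - R.card := by
    have e1 : ∀ l ∈ N, (((l ∩ R).card : ℝ) * ((l ∩ R).card : ℝ) - ((l ∩ R).card : ℝ)) =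
        ∑ x ∈ R, ∑ y ∈ R, (if x = y then 0 else (if x ∈ l ∧ y ∈ l then (1 : ℝ) else 0)) := by
      intro l _
      rw [hcnt R l]
      have := prod_sub_diag R R (fun x => if x ∈ l then (1 : ℝ) else 0)
        (fun x => if x ∈ l then (1 : ℝ) else 0)
      rw [inter_self] at this
      have e0 : ∑ j ∈ R, (if j ∈ l then (1 : ℝ) else 0) * (if j ∈ l then (1 : ℝ) else 0) =
          ∑ j ∈ R, (if j ∈ l then (1 : ℝ) else 0) := by
        apply sum_congr rfl; intro x _; split_ifs <;> simp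
      rw [e0] at this
      rw [this]
      apply sum_congr rfl; intro x _; apply sum_congr rfl; intro y _
      by_cases h1 : x ∈ l <;> by_cases h2 : y ∈ l <;> simp [h1, h2]
    rw [sum_congr rfl e1, sum_comm]
    have e2 : ∀ x ∈ R, ∑ l ∈ N, ∑ y ∈ R, (if x = y then 0 else
        (if x ∈ l ∧ y ∈ l then (1 : ℝ) else 0)) ≤ (R.card : ℝ) - 1 := by
      intro x hx
      rw [sum_comm]
      have e3 : ∀ y ∈ R, ∑ l ∈ N, (if x = y then 0 else
        (if x ∈ l ∧ y ∈ l then (1 : ℝ) else 0)) ≤ if x = y then 0 else 1 := by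
        intro y _
        by_cases hxy : x = y
        · simp [hxy]
        · simp only [hxy, if_false]
          rw [← sum_filter, sum_const, nsmul_eq_mul, mul_one]
          have : (N.filter (fun l => x ∈ l ∧ y ∈ l)).card ≤ 1 := by
            rw [Finset.card_le_one]
            intro l hl l' hl'
            simp only [mem_filter, hN, G.mem_Nf] at hl hl'
            exact G.uniq_line l hl.1.1 l' hl'.1.1 x y hxy hl.2.1 hl.2.2 hl'.2.1 hl'.2.2
          exact_mod_cast this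
      refine (sum_le_sum e3).trans ?_
      have e4 : ∀ y ∈ R, (if x = y then (0 : ℝ) else 1) = 1 - (if x = y then 1 else 0) := by
        intro y _; split_ifs <;> simp
      rw [sum_congr rfl e4, sum_sub_distrib, sum_ite_eq, if_pos hx]
      simp
    refine (sum_le_sum e2).trans ?_
    rw [sum_const, nsmul_eq_mul]
    linarith
  -- Cauchy-Schwarz
  have hcs := sq_sum_le_card_mul_sum_sq (s := N)
    (f := fun l => ((l ∩ J).card : ℝ) * ((l ∩ R).card : ℝ))
  rw [hs1] at hcs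
  have hsq : ∑ l ∈ N, (((l ∩ J).card : ℝ) * ((l ∩ R).card : ℝ)) ^ 2 ≤
      (J.card : ℝ) * R.card + ((R.card : ℝ) * R.card - R.card) := by
    rw [← hs1]
    refine le_trans ?_ (add_le_add_right hs2 _)
    rw [← sum_add_distrib]
    apply sum_le_sum
    intro l hl
    have h1 := hone l hl
    have h0 : (l ∩ J).card = 0 ∨ (l ∩ J).card = 1 := by omega
    have hnn : 0 ≤ ((l ∩ R).card : ℝ) * ((l ∩ R).card : ℝ) - ((l ∩ R).card : ℝ) := by
      rcases Nat.eq_zero_or_pos (l ∩ R).card with h | h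
      · rw [h]; simp
      · have : (1 : ℝ) ≤ (l ∩ R).card := by exact_mod_cast h
        nlinarith
    rcases h0 with h | h <;> rw [h] <;> simp only [Nat.cast_zero, Nat.cast_one] <;> nlinarith
  have hNn : (0 : ℝ) ≤ N.card := by positivity
  have hJ1 : (1 : ℝ) ≤ J.card := by rw [hJc]; exact G.bb_ge hjL
  rcases Nat.eq_zero_or_pos R.card with h0 | h0
  · rw [h0]; simp only [Nat.cast_zero, mul_zero, add_zero]
    apply mul_nonneg hNn; linarith
  · have hR0 : (0 : ℝ) < R.card := by exact_mod_cast h0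
    have h2 : ((J.card : ℝ) * R.card) ^ 2 ≤ (N.card : ℝ) *
        ((J.card : ℝ) * R.card + ((R.card : ℝ) * R.card - R.card)) :=
      hcs.trans (mul_le_mul_of_nonneg_left hsq hNn)
    have h3 : ((J.card : ℝ) ^ 2 * R.card) * R.card ≤
        ((N.card : ℝ) * (J.card + R.card - 1)) * R.card := by nlinarith
    exact le_of_mul_le_mul_right h3 hR0

end Pool.Agent.Helper123.PLP
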