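import Mathlib

namespace Pool.Agent.Helper123.PLP

open Finset

lemma ptw (X Y Z a b : ℝ) (hZ : 0 ≤ Z) (ha : 0 < a) (hb : 0 < b)
    (hX : X = 0 ∨ 8 * a ≤ X) (hY : Y = 0 ∨ 8 * b ≤ Y) :
    a * X + b * Y - (X + Y - 2 * Z) ^ 2 / 2 ≤ 4 * Z * (a + b) := by
  have hX0 : 0 ≤ X := by rcases hX with h | h <;> linarith
  have hY0 : 0 ≤ Y := by rcases hY with h | h <;> linarith
  have hX1 : a * X ≤ X ^ 2 / 8 := by
    rcases hX with h | h
    · rw [h]; norm_num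
    · nlinarith
  have hY1 : b * Y ≤ Y ^ 2 / 8 := by
    rcases hY with h | h
    · rw [h]; norm_num
    · nlinarith
  by_cases h : X + Y ≤ 4 * Z
  · have e1 : a * X ≤ a * (4 * Z) := mul_le_mul_of_nonneg_left (by linarith) ha.le
    have e2 : b * Y ≤ b * (4 * Z) := mul_le_mul_of_nonneg_left (by linarith) hb.le
    nlinarith [sq_nonneg (X + Y - 2 * Z)]
  · push Not at h
    have e1 : ((X + Y) / 2) ^ 2 ≤ (X + Y - 2 * Z) ^ 2 := by
      apply pow_le_pow_left₀ (by positivity)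
      linarith
    have e2 : 0 ≤ 4 * Z * (a + b) := by positivity
    nlinarith [mul_nonneg hX0 hY0]

lemma dom1 (z g N β m : ℝ) (hz : z ≤ β + m) (hg : g ≤ m) (hg0 : 0 ≤ g)
    (h : β ^ 2 * m ≤ N * (β + m - 1)) (hβ : 1 ≤ β) (hN : 0 ≤ N)
    (hd : m < β) : z * g ≤ 4 * N := by
  -- β m ≤ 2 N
  have h1 : β ^ 2 * m ≤ N * (2 * β) := by
    refine h.trans (mul_le_mul_of_nonneg_left (by linarith) hN)
  have h2 : β * m ≤ 2 * N := by
    have hβ0 : 0 < β := by linarith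
    have : β * (β * m) ≤ β * (2 * N) := by nlinarith
    exact le_of_mul_le_mul_left this hβ0
  have h3 : z * g ≤ (2 * β) * m := by
    apply mul_le_mul (by linarith) hg hg0 (by linarith)
  nlinarith

lemma dom2 (N β m : ℝ)
    (h : β ^ 2 * m ≤ N * (β + m - 1)) (hβ : 1 ≤ β) (hN : 0 ≤ N)
    (hd : β ≤ m) : β ^ 2 ≤ 2 * N := by
  have hm : 0 < m := by linarith
  have h1 : β ^ 2 * m ≤ (2 * N) * m := by
    have : N * (β + m - 1) ≤ N * (2 * m) := mul_le_mul_of_nonneg_left (by linarith) hN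
    nlinarith
  exact le_of_mul_le_mul_right h1 hm

theorem numeric {ι : Type*} (s : Finset ι) (z g1 g2 N q β m : ι → ℝ) (V r1 r2 t e : ℝ)
    (hV : 0 < V) (h1 : 0 < r1) (h2 : 0 < r2)
    (a1 : ∑ i ∈ s, z i * g1 i = V * r1) (a2 : ∑ i ∈ s, z i * g2 i = V * r2)
    (hb : ∑ i ∈ s, (z i ^ 2 - q i) ≤ V ^ 2)
    (c1 : ∑ i ∈ s, (g1 i ^ 2 - g1 i) ≤ r1 ^ 2) (c2 : ∑ i ∈ s, (g2 i ^ 2 - g2 i) ≤ r2 ^ 2)
    (hd : e + ∑ i ∈ s, (g1 i * g2 i - g1 i) ≤ r1 * r2)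
    (hN : ∑ i ∈ s, N i ≤ t)
    (pz : ∀ i ∈ s, 0 ≤ z i) (pzN : ∀ i ∈ s, z i ≤ 2 * N i) (pq0 : ∀ i ∈ s, 0 ≤ q i)
    (pq : ∀ i ∈ s, q i ≤ β i * z i) (pqz : ∀ i ∈ s, q i ≤ z i ^ 2)
    (pzb : ∀ i ∈ s, z i ≤ β i + m i) (pg1m : ∀ i ∈ s, g1 i ≤ m i) (pg2m : ∀ i ∈ s, g2 i ≤ m i)
    (pF : ∀ i ∈ s, β i ^ 2 * m i ≤ N i * (β i + m i - 1)) (pβ : ∀ i ∈ s, 1 ≤ β i)
    (pg1 : ∀ i ∈ s, 0 ≤ g1 i) (pg12 : ∀ i ∈ s, g1 i ≤ g2 i)
    (pgg1 : ∀ i ∈ s, 0 ≤ g1 i ^ 2 - g1 i) (pgg2 : ∀ i ∈ s, 0 ≤ g2 i ^ 2 - g2 i)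
    (pgg : ∀ i ∈ s, 0 ≤ g1 i * g2 i - g1 i)
    (hr1t : r1 ^ 2 ≤ 8 * t) (hr1V : r1 ≤ 2 * V) :
    e * V ≤ 40 * t * (r1 + r2) + 16 * t * r2 := by
  classical
  have pN : ∀ i ∈ s, 0 ≤ N i := fun i hi => by linarith [pz i hi, pzN i hi]
  have pg2 : ∀ i ∈ s, 0 ≤ g2 i := fun i hi => by linarith [pg1 i hi, pg12 i hi]
  obtain ⟨G1, hG1⟩ : ∃ G : ι → ℝ, G = fun i => if β i ≤ m i ∧ 8 ≤ g1 i then g1 i else 0 := ⟨_, rfl⟩
  obtain ⟨G2, hG2⟩ : ∃ G : ι → ℝ, G = fun i => if β i ≤ m i ∧ 8 ≤ g2 i then g2 i else 0 := ⟨_, rfl⟩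
  obtain ⟨Zd, hZd⟩ : ∃ G : ι → ℝ, G = fun i => if β i ≤ m i then z i else 0 := ⟨_, rfl⟩
  obtain ⟨Q, hQ⟩ : ∃ G : ι → ℝ, G = fun i => if β i ≤ m i then q i else 0 := ⟨_, rfl⟩
  have G10 : ∀ i ∈ s, 0 ≤ G1 i := fun i hi => by
    rw [hG1]; dsimp only; split_ifs; exacts [pg1 i hi, le_rfl]
  have G20 : ∀ i ∈ s, 0 ≤ G2 i := fun i hi => by
    rw [hG2]; dsimp only; split_ifs; exacts [pg2 i hi, le_rfl]
  have Zd0 : ∀ i ∈ s, 0 ≤ Zd i := fun i hi => by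
    rw [hZd]; dsimp only; split_ifs; exacts [pz i hi, le_rfl]
  have Q0 : ∀ i ∈ s, 0 ≤ Q i := fun i hi => by
    rw [hQ]; dsimp only; split_ifs; exacts [pq0 i hi, le_rfl]
  -- pointwise facts
  have i1 : ∀ i ∈ s, G1 i ^ 2 ≤ (g1 i ^ 2 - g1 i) + G1 i := fun i hi => by
    rw [hG1]; dsimp only; split_ifs
    · linarith
    · have := pgg1 i hi; nlinarith
  have i2 : ∀ i ∈ s, G2 i ^ 2 ≤ (g2 i ^ 2 - g2 i) + G2 i := fun i hi => by
    rw [hG2]; dsimp only; split_ifs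
    · linarith
    · have := pgg2 i hi; nlinarith
  have i3 : ∀ i ∈ s, z i * g1 i ≤ Zd i * G1 i + 16 * N i := fun i hi => by
    rw [hG1, hZd]; dsimp only
    by_cases hbm : β i ≤ m i
    · by_cases h8 : 8 ≤ g1 i
      · simp only [hbm, h8, and_self, if_true]; linarith [pN i hi]
      · push Not at h8
        have : ¬ (β i ≤ m i ∧ 8 ≤ g1 i) := fun h => by linarith [h.2]
        rw [if_neg this]
        have := mul_le_mul_of_nonneg_left h8.le (pz i hi)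
        have := pzN i hi
        linarith
    · have : ¬ (β i ≤ m i ∧ 8 ≤ g1 i) := fun h => hbm h.1
      rw [if_neg this]
      push Not at hbm
      have := dom1 (z i) (g1 i) (N i) (β i) (m i) (pzb i hi) (pg1m i hi) (pg1 i hi)
        (pF i hi) (pβ i hi) (pN i hi) hbm
      linarith [pN i hi]
  have i4 : ∀ i ∈ s, z i * g2 i ≤ Zd i * G2 i + 16 * N i := fun i hi => by
    rw [hG2, hZd]; dsimp only
    by_cases hbm : β i ≤ m i
    · by_cases h8 : 8 ≤ g2 i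
      · simp only [hbm, h8, and_self, if_true]; linarith [pN i hi]
      · push Not at h8
        have : ¬ (β i ≤ m i ∧ 8 ≤ g2 i) := fun h => by linarith [h.2]
        rw [if_neg this]
        have := mul_le_mul_of_nonneg_left h8.le (pz i hi)
        have := pzN i hi
        linarith
    · have : ¬ (β i ≤ m i ∧ 8 ≤ g2 i) := fun h => hbm h.1
      rw [if_neg this]
      push Not at hbm
      have := dom1 (z i) (g2 i) (N i) (β i) (m i) (pzb i hi) (pg2m i hi) (pg2 i hi)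
        (pF i hi) (pβ i hi) (pN i hi) hbm
      linarith [pN i hi]
  have i5 : ∀ i ∈ s, Zd i ^ 2 ≤ (z i ^ 2 - q i) + Q i := fun i hi => by
    rw [hZd, hQ]; dsimp only; split_ifs
    · linarith
    · have := pqz i hi; nlinarith
  have i6 : ∀ i ∈ s, 4 * r1 * V * Q i ≤ 8 * V ^ 2 * N i + r1 ^ 2 * Zd i ^ 2 := fun i hi => by
    rw [hZd, hQ]; dsimp only; split_ifs with hbm
    · have e1 := dom2 (N i) (β i) (m i) (pF i hi) (pβ i hi) (pN i hi) hbm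
      have e2 : 4 * r1 * V * q i ≤ 4 * r1 * V * (β i * z i) :=
        mul_le_mul_of_nonneg_left (pq i hi) (by positivity)
      have e3 : 4 * V ^ 2 * β i ^ 2 ≤ 4 * V ^ 2 * (2 * N i) :=
        mul_le_mul_of_nonneg_left e1 (by positivity)
      nlinarith [sq_nonneg (2 * V * β i - r1 * z i)]
    · have := mul_nonneg (sq_nonneg V) (pN i hi)
      nlinarith
  have i7 : ∀ i ∈ s, Zd i ≤ 2 * N i := fun i hi => by
    rw [hZd]; dsimp only; split_ifs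
    · exact pzN i hi
    · linarith [pN i hi]
  -- sums
  have hB0 : 0 ≤ ∑ i ∈ s, Q i := sum_nonneg Q0
  have ht0 : 0 ≤ t := le_trans (sum_nonneg pN) hN
  have S11 : ∑ i ∈ s, G1 i ^ 2 ≤ r1 ^ 2 + ∑ i ∈ s, G1 i := by
    have := sum_le_sum i1
    rw [sum_add_distrib] at this
    linarith
  have S22 : ∑ i ∈ s, G2 i ^ 2 ≤ r2 ^ 2 + ∑ i ∈ s, G2 i := by
    have := sum_le_sum i2
    rw [sum_add_distrib] at this
    linarith
  have S1Z : V * r1 - 16 * t ≤ ∑ i ∈ s, Zd i * G1 i := by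
    have := sum_le_sum i3
    rw [sum_add_distrib, ← mul_sum] at this
    linarith
  have S2Z : V * r2 - 16 * t ≤ ∑ i ∈ s, Zd i * G2 i := by
    have := sum_le_sum i4
    rw [sum_add_distrib, ← mul_sum] at this
    linarith
  have SZZ : ∑ i ∈ s, Zd i ^ 2 ≤ V ^ 2 + ∑ i ∈ s, Q i := by
    have := sum_le_sum i5
    rw [sum_add_distrib] at this
    linarith
  have SZ : ∑ i ∈ s, Zd i ≤ 2 * t := by
    have := sum_le_sum i7
    rw [← mul_sum] at this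
    linarith
  have hB : r1 * ∑ i ∈ s, Q i ≤ 8 * V * t := by
    have e1 := sum_le_sum i6
    rw [sum_add_distrib, ← mul_sum, ← mul_sum, ← mul_sum] at e1
    have e2 : r1 ^ 2 * ∑ i ∈ s, Zd i ^ 2 ≤ r1 ^ 2 * (V ^ 2 + ∑ i ∈ s, Q i) :=
      mul_le_mul_of_nonneg_left SZZ (by positivity)
    have e3 : 8 * V ^ 2 * ∑ i ∈ s, N i ≤ 8 * V ^ 2 * t :=
      mul_le_mul_of_nonneg_left hN (by positivity)
    have e4 : r1 ^ 2 * V ^ 2 ≤ 8 * t * V ^ 2 := mul_le_mul_of_nonneg_right hr1t (by positivity)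
    have e5 : (r1 * r1) * ∑ i ∈ s, Q i ≤ (2 * V * r1) * ∑ i ∈ s, Q i :=
      mul_le_mul_of_nonneg_right (mul_le_mul_of_nonneg_right hr1V h1.le) hB0
    have e6 : (2 * V) * (r1 * ∑ i ∈ s, Q i) ≤ (2 * V) * (8 * V * t) := by nlinarith
    exact le_of_mul_le_mul_left e6 (by positivity)
  -- the quadratic form
  have hi1 : ∀ i ∈ s, G1 i = 0 ∨ 8 ≤ G1 i := fun i hi => by
    rw [hG1]; dsimp only; split_ifs with h
    · right; exact h.2
    · left; rfl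
  have hi2 : ∀ i ∈ s, G2 i = 0 ∨ 8 ≤ G2 i := fun i hi => by
    rw [hG2]; dsimp only; split_ifs with h
    · right; exact h.2
    · left; rfl
  obtain ⟨a, ha⟩ : ∃ a : ℝ, a = 1 / r1 := ⟨_, rfl⟩
  obtain ⟨b, hb'⟩ : ∃ a : ℝ, a = 1 / r2 := ⟨_, rfl⟩
  obtain ⟨c, hc⟩ : ∃ a : ℝ, a = 1 / V := ⟨_, rfl⟩
  have har : a * r1 = 1 := by rw [ha]; field_simp
  have hbr : b * r2 = 1 := by rw [hb']; field_simp
  have hcr : c * V = 1 := by rw [hc]; field_simp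
  have ha0 : 0 < a := by rw [ha]; positivity
  have hb0 : 0 < b := by rw [hb']; positivity
  have hc0 : 0 < c := by rw [hc]; positivity
  have i8 : ∀ i ∈ s, a * b * (G1 i * G2 i) ≤ a * b * (g1 i * g2 i - g1 i)
      + (a ^ 2 * G1 i + b ^ 2 * G2 i) / 2 := fun i hi => by
    have hnn : 0 ≤ a * b * (g1 i * g2 i - g1 i) := mul_nonneg (by positivity) (pgg i hi)
    have hn1 : 0 ≤ a ^ 2 * G1 i := mul_nonneg (by positivity) (G10 i hi)
    have hn2 : 0 ≤ b ^ 2 * G2 i := mul_nonneg (by positivity) (G20 i hi)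
    by_cases hz1 : G1 i = 0
    · rw [hz1]; nlinarith
    · by_cases hz2 : G2 i = 0
      · rw [hz2]; nlinarith
      · have f1 : G1 i = g1 i := by
          rw [hG1] at hz1 ⊢; dsimp only at hz1 ⊢; split_ifs at hz1 ⊢ with h
          · rfl
          · exact absurd rfl hz1
        have f2 : G2 i = g2 i := by
          rw [hG2] at hz2 ⊢; dsimp only at hz2 ⊢; split_ifs at hz2 ⊢ with h
          · rfl
          · exact absurd rfl hz2
        rw [f1, f2]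
        have h3 : b ^ 2 * g1 i ≤ b ^ 2 * g2 i := mul_le_mul_of_nonneg_left (pg12 i hi) (by positivity)
        have h4 : 0 ≤ (a - b) ^ 2 * g1 i := mul_nonneg (sq_nonneg _) (pg1 i hi)
        nlinarith
  have S12 : a * b * ∑ i ∈ s, G1 i * G2 i ≤ 1 - a * b * e
      + (a ^ 2 * ∑ i ∈ s, G1 i + b ^ 2 * ∑ i ∈ s, G2 i) / 2 := by
    have e1 := sum_le_sum i8
    rw [sum_add_distrib, ← mul_sum, ← mul_sum, ← sum_div, sum_add_distrib, ← mul_sum,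
      ← mul_sum] at e1
    have e2 : a * b * ∑ i ∈ s, (g1 i * g2 i - g1 i) ≤ a * b * (r1 * r2 - e) :=
      mul_le_mul_of_nonneg_left (by linarith) (by positivity)
    have e3 : a * b * (r1 * r2 - e) = 1 - a * b * e := by
      have : a * b * (r1 * r2) = (a * r1) * (b * r2) := by ring
      rw [mul_sub, this, har, hbr]; ring
    linarith
  have key : ∑ i ∈ s, (a * (a * G1 i) + b * (b * G2 i)
      - (a * G1 i + b * G2 i - 2 * (c * Zd i)) ^ 2 / 2) ≤ ∑ i ∈ s, 4 * (c * Zd i) * (a + b) := by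
    apply sum_le_sum
    intro i hi
    apply ptw _ _ _ _ _ (mul_nonneg hc0.le (Zd0 i hi)) ha0 hb0
    · rcases hi1 i hi with h | h
      · left; rw [h, mul_zero]
      · right; nlinarith
    · rcases hi2 i hi with h | h
      · left; rw [h, mul_zero]
      · right; nlinarith
  have hR : ∑ i ∈ s, 4 * (c * Zd i) * (a + b) = 4 * c * (a + b) * ∑ i ∈ s, Zd i := by
    rw [mul_sum]; apply sum_congr rfl; intros; ring
  have hL : ∑ i ∈ s, (a * (a * G1 i) + b * (b * G2 i)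
      - (a * G1 i + b * G2 i - 2 * (c * Zd i)) ^ 2 / 2) =
      a ^ 2 * ∑ i ∈ s, G1 i + b ^ 2 * ∑ i ∈ s, G2 i - a ^ 2 / 2 * ∑ i ∈ s, G1 i ^ 2
      - b ^ 2 / 2 * ∑ i ∈ s, G2 i ^ 2 - 2 * c ^ 2 * ∑ i ∈ s, Zd i ^ 2
      - a * b * ∑ i ∈ s, G1 i * G2 i + 2 * a * c * ∑ i ∈ s, Zd i * G1 i
      + 2 * b * c * ∑ i ∈ s, Zd i * G2 i := by
    simp only [mul_sum]
    rw [← sum_add_distrib, ← sum_sub_distrib, ← sum_sub_distrib, ← sum_sub_distrib,
      ← sum_sub_distrib, ← sum_add_distrib, ← sum_add_distrib]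
    apply sum_congr rfl; intros; ring
  rw [hR, hL] at key
  have k1 : a ^ 2 / 2 * ∑ i ∈ s, G1 i ^ 2 ≤ 1 / 2 + a ^ 2 / 2 * ∑ i ∈ s, G1 i := by
    have := mul_le_mul_of_nonneg_left S11 (show 0 ≤ a ^ 2 / 2 by positivity)
    have e : a ^ 2 / 2 * (r1 ^ 2 + ∑ i ∈ s, G1 i) = (a * r1) ^ 2 / 2 + a ^ 2 / 2 * ∑ i ∈ s, G1 i := by
      ring
    rw [e, har] at this; linarith
  have k2 : b ^ 2 / 2 * ∑ i ∈ s, G2 i ^ 2 ≤ 1 / 2 + b ^ 2 / 2 * ∑ i ∈ s, G2 i := by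
    have := mul_le_mul_of_nonneg_left S22 (show 0 ≤ b ^ 2 / 2 by positivity)
    have e : b ^ 2 / 2 * (r2 ^ 2 + ∑ i ∈ s, G2 i) = (b * r2) ^ 2 / 2 + b ^ 2 / 2 * ∑ i ∈ s, G2 i := by
      ring
    rw [e, hbr] at this; linarith
  have k3 : 2 * c ^ 2 * ∑ i ∈ s, Zd i ^ 2 ≤ 2 + 2 * c ^ 2 * ∑ i ∈ s, Q i := by
    have := mul_le_mul_of_nonneg_left SZZ (show 0 ≤ 2 * c ^ 2 by positivity)
    have e : 2 * c ^ 2 * (V ^ 2 + ∑ i ∈ s, Q i) = 2 * (c * V) ^ 2 + 2 * c ^ 2 * ∑ i ∈ s, Q i := by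
      ring
    rw [e, hcr] at this; linarith
  have k4 : 2 - 32 * a * c * t ≤ 2 * a * c * ∑ i ∈ s, Zd i * G1 i := by
    have := mul_le_mul_of_nonneg_left S1Z (show 0 ≤ 2 * a * c by positivity)
    have e : 2 * a * c * (V * r1 - 16 * t) = 2 * (a * r1) * (c * V) - 32 * a * c * t := by ring
    rw [e, har, hcr] at this; linarith
  have k5 : 2 - 32 * b * c * t ≤ 2 * b * c * ∑ i ∈ s, Zd i * G2 i := by
    have := mul_le_mul_of_nonneg_left S2Z (show 0 ≤ 2 * b * c by positivity)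
    have e : 2 * b * c * (V * r2 - 16 * t) = 2 * (b * r2) * (c * V) - 32 * b * c * t := by ring
    rw [e, hbr, hcr] at this; linarith
  have k6 : 4 * c * (a + b) * ∑ i ∈ s, Zd i ≤ 8 * c * (a + b) * t := by
    have := mul_le_mul_of_nonneg_left SZ (show 0 ≤ 4 * c * (a + b) by positivity)
    linarith
  have k7 : a * b * e ≤ 2 * c ^ 2 * ∑ i ∈ s, Q i + 40 * c * (a + b) * t := by
    clear hL hR
    generalize ∑ i ∈ s, G1 i = S1 at *
    generalize ∑ i ∈ s, G2 i = S2 at *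
    generalize ∑ i ∈ s, G1 i ^ 2 = S3 at *
    generalize ∑ i ∈ s, G2 i ^ 2 = S4 at *
    generalize ∑ i ∈ s, Zd i ^ 2 = S5 at *
    generalize ∑ i ∈ s, G1 i * G2 i = S6 at *
    generalize ∑ i ∈ s, Zd i * G1 i = S7 at *
    generalize ∑ i ∈ s, Zd i * G2 i = S8 at *
    generalize ∑ i ∈ s, Zd i = S9 at *
    generalize ∑ i ∈ s, Q i = S0 at *
    clear har hbr hcr
    linarith
  -- multiply by r1 r2 V
  have k8 : (r1 * r2 * V) * (a * b * e) ≤ (r1 * r2 * V) *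
      (2 * c ^ 2 * ∑ i ∈ s, Q i + 40 * c * (a + b) * t) :=
    mul_le_mul_of_nonneg_left k7 (by positivity)
  have l1 : (r1 * r2 * V) * (a * b * e) = e * V := by
    have : (r1 * r2 * V) * (a * b * e) = (a * r1) * (b * r2) * (e * V) := by ring
    rw [this, har, hbr]; ring
  have l2 : (r1 * r2 * V) * (2 * c ^ 2 * ∑ i ∈ s, Q i + 40 * c * (a + b) * t)
      = 2 * r2 * c * (r1 * ∑ i ∈ s, Q i) + 40 * t * (r1 + r2) := by
    have : (r1 * r2 * V) * (2 * c ^ 2 * ∑ i ∈ s, Q i + 40 * c * (a + b) * t)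
      = 2 * r2 * c * (c * V) * (r1 * ∑ i ∈ s, Q i)
        + 40 * t * (c * V) * ((a * r1) * r2 + (b * r2) * r1) := by ring
    rw [this, har, hbr, hcr]; ring
  rw [l1, l2] at k8
  have l3 : 2 * r2 * c * (r1 * ∑ i ∈ s, Q i) ≤ 2 * r2 * c * (8 * V * t) :=
    mul_le_mul_of_nonneg_left hB (by positivity)
  have l4 : 2 * r2 * c * (8 * V * t) = 16 * t * r2 := by
    have : 2 * r2 * c * (8 * V * t) = 16 * t * r2 * (c * V) := by ring
    rw [this, hcr, mul_one]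
  linarith

end Pool.Agent.Helper123.PLP
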