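import Mathlib
import Pool.Agent.Helper123.PLP.Num
import Pool.Agent.Helper123.PLP.Geo

namespace Pool.Agent.Helper123.PLP

open Finset

set_option linter.unusedSectionVars false

variable {P : Type*} [Fintype P] [DecidableEq P] (G : Geo P)

lemma Geo.two_lines {v : P} {h : Finset P} (hh : h ∈ G.Hv v) : 2 ≤ (inn (G.Lv v) h).card := by
  rw [G.mem_Hv] at hh
  obtain ⟨hhH, hvh⟩ := hh
  obtain ⟨l0, hl0, hl0h, x0, hx0, hx0l⟩ := G.nondeg h hhH
  have hlt : 1 < (inn (G.Lv v) h).card := by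
    rw [Finset.one_lt_card]
    by_cases hv : v ∈ l0
    · have hne : v ≠ x0 := fun h => hx0l (h ▸ hv)
      obtain ⟨l, hl, hvl, hxl⟩ := G.ex_line v x0 hne
      refine ⟨l0, ?_, l, ?_, ?_⟩
      · rw [mem_inn, G.mem_Lv]; exact ⟨⟨hl0, hv⟩, hl0h⟩
      · rw [mem_inn, G.mem_Lv]; exact ⟨⟨hl, hvl⟩, G.closed h hhH l hl v x0 hne hvl hxl hvh hx0⟩
      · rintro rfl; exact hx0l hxl
    · obtain ⟨y, hy, z, hz, hyz⟩ := Finset.one_lt_card.mp
        (by have := G.two_le l0 hl0; omega : 1 < l0.card)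
      have hvy : v ≠ y := fun h => hv (h ▸ hy)
      have hvz : v ≠ z := fun h => hv (h ▸ hz)
      obtain ⟨l, hl, hvl, hyl⟩ := G.ex_line v y hvy
      obtain ⟨k, hk, hvk, hzk⟩ := G.ex_line v z hvz
      refine ⟨l, ?_, k, ?_, ?_⟩
      · rw [mem_inn, G.mem_Lv]
        exact ⟨⟨hl, hvl⟩, G.closed h hhH l hl v y hvy hvl hyl hvh (hl0h hy)⟩
      · rw [mem_inn, G.mem_Lv]
        exact ⟨⟨hk, hvk⟩, G.closed h hhH k hk v z hvz hvk hzk hvh (hl0h hz)⟩
      · rintro rfl
        have := G.uniq_line l hl l0 hl0 y z hyz hyl hzk hy hz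
        exact hv (this ▸ hvl)
  omega

/-- long lines through `v` -/
noncomputable def Geo.A (v : P) (T : ℝ) : Finset (Finset P) :=
  (G.Lv v).filter (fun l => T ≤ bb l)
/-- short lines through `v` -/
noncomputable def Geo.D (v : P) (T : ℝ) : Finset (Finset P) :=
  (G.Lv v).filter (fun l => bb l < T)

/-- the planes through `v` without long lines, containing a line of `D1` -/
noncomputable def Geo.E (v : P) (T : ℝ) (D1 : Finset (Finset P)) : Finset (Finset P) :=
  (G.Hv v).filter (fun h => inn (G.A v T) h = ∅ ∧ (inn D1 h).Nonempty)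

lemma Geo.mem_A {v : P} {T : ℝ} {l : Finset P} : l ∈ G.A v T ↔ (l ∈ G.L ∧ v ∈ l) ∧ T ≤ bb l := by
  simp [Geo.A, G.mem_Lv]
lemma Geo.mem_D {v : P} {T : ℝ} {l : Finset P} : l ∈ G.D v T ↔ (l ∈ G.L ∧ v ∈ l) ∧ bb l < T := by
  simp [Geo.D, G.mem_Lv]

lemma nat_sq_sub (n : ℕ) : (0 : ℝ) ≤ (n : ℝ) * n - n := by
  rcases Nat.eq_zero_or_pos n with h | h
  · rw [h]; simp
  · have : (1 : ℝ) ≤ n := by exact_mod_cast h
    nlinarith

theorem Geo.key (v : P) (T : ℝ) (hT : 2 ≤ T) (D1 : Finset (Finset P)) (hD1 : D1 ⊆ G.D v T)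
    (hV : 0 < ∑ l ∈ G.A v T, bb l)
    (hr1t : (D1.card : ℝ) ^ 2 ≤ 8 * (G.L.card : ℝ))
    (hr1V : (D1.card : ℝ) ≤ 2 * ∑ l ∈ G.A v T, bb l) :
    ((G.E v T D1).card : ℝ) * (∑ l ∈ G.A v T, bb l) ≤
      40 * (G.L.card : ℝ) * ((D1.card : ℝ) + ((G.D v T).card : ℝ))
      + 16 * (G.L.card : ℝ) * ((G.D v T).card : ℝ) := by
  classical
  rcases Finset.eq_empty_or_nonempty D1 with hD | hD
  · have : G.E v T D1 = ∅ := by
      unfold Geo.E
      rw [Finset.filter_eq_empty_iff]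
      intro h _ hc
      rw [hD] at hc
      simp [inn] at hc
    rw [this, hD]
    simp only [card_empty, Nat.cast_zero, zero_mul]
    positivity
  set t : ℝ := (G.L.card : ℝ) with ht
  set V : ℝ := ∑ l ∈ G.A v T, bb l with hVdef
  have hD1pos : 0 < D1.card := card_pos.mpr hD
  have hD12 : D1.card ≤ (G.D v T).card := card_le_card hD1
  have hAsub : G.A v T ⊆ G.Lv v := filter_subset _ _
  have hDsub : G.D v T ⊆ G.Lv v := filter_subset _ _
  have hD1sub : D1 ⊆ G.Lv v := hD1.trans hDsub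
  have hAD : G.A v T ∩ G.D v T = ∅ := by
    rw [Finset.eq_empty_iff_forall_notMem]
    intro l hl
    rw [mem_inter, G.mem_A, G.mem_D] at hl
    linarith [hl.1.2, hl.2.2]
  have hAD1 : G.A v T ∩ D1 = ∅ := by
    rw [Finset.eq_empty_iff_forall_notMem]
    intro l hl
    rw [mem_inter] at hl
    have : l ∈ G.A v T ∩ G.D v T := mem_inter.mpr ⟨hl.1, hD1 hl.2⟩
    rw [hAD] at this
    exact absurd this (notMem_empty _)
  have hinn_sub : ∀ {X Y : Finset (Finset P)} (h : Finset P), X ⊆ Y → inn X h ⊆ inn Y h := by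
    intro X Y h hXY l hl
    rw [mem_inn] at hl ⊢
    exact ⟨hXY hl.1, hl.2⟩
  have hbbpos : ∀ l ∈ G.Lv v, 1 ≤ bb l := fun l hl => G.bb_ge (G.mem_Lv.mp hl).1
  set s : Finset (Finset P) := (G.Hv v).filter (fun h => (inn (G.A v T) h).Nonempty) with hs
  -- data
  set z : Finset P → ℝ := fun h => ∑ l ∈ inn (G.A v T) h, bb l with hz
  set q : Finset P → ℝ := fun h => ∑ l ∈ inn (G.A v T) h, bb l * bb l with hq
  set g1 : Finset P → ℝ := fun h => ((inn D1 h).card : ℝ) with hg1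
  set g2 : Finset P → ℝ := fun h => ((inn (G.D v T) h).card : ℝ) with hg2
  set N : Finset P → ℝ := fun h => ((G.Nf v h).card : ℝ) with hN
  set β : Finset P → ℝ := fun h =>
    if hne : (inn (G.A v T) h).Nonempty then (inn (G.A v T) h).sup' hne bb else 0 with hβ
  set m : Finset P → ℝ := fun h => (h.card : ℝ) - 1 - β h with hm
  have hβspec : ∀ h ∈ s, ∃ j ∈ inn (G.A v T) h, β h = bb j := by
    intro h hh
    rw [hs, mem_filter] at hh
    have : β h = (inn (G.A v T) h).sup' hh.2 bb := by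
      rw [hβ]; simp only [hh.2, dif_pos]
    rw [this]
    obtain ⟨j, hj, hj'⟩ := Finset.exists_mem_eq_sup' hh.2 bb
    exact ⟨j, hj, hj'⟩
  have hβmax : ∀ h ∈ s, ∀ i ∈ inn (G.A v T) h, bb i ≤ β h := by
    intro h hh i hi
    rw [hs, mem_filter] at hh
    have : β h = (inn (G.A v T) h).sup' hh.2 bb := by
      rw [hβ]; simp only [hh.2, dif_pos]
    rw [this]
    exact Finset.le_sup' bb hi
  have hsHv : ∀ h ∈ s, h ∈ G.Hv v := fun h hh => (mem_filter.mp hh).1
  have hznn : ∀ h, 0 ≤ z h := by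
    intro h
    apply sum_nonneg
    intro l hl
    have := hbbpos l (hAsub (mem_inn.mp hl).1)
    linarith
  have hqnn : ∀ h, 0 ≤ q h := by
    intro h
    apply sum_nonneg
    intro l hl
    exact mul_self_nonneg _
  have hqz : ∀ h, q h ≤ z h * z h := by
    intro h
    have := prod_sub_diag (inn (G.A v T) h) (inn (G.A v T) h) bb bb
    rw [inter_self] at this
    have h2 : 0 ≤ ∑ j ∈ inn (G.A v T) h, ∑ j' ∈ inn (G.A v T) h,
        (if j = j' then 0 else bb j * bb j') := by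
      apply sum_nonneg; intro j hj; apply sum_nonneg; intro j' hj'
      split_ifs
      · exact le_rfl
      · have h1 := hbbpos j (hAsub (mem_inn.mp hj).1)
        have h2 := hbbpos j' (hAsub (mem_inn.mp hj').1)
        apply mul_nonneg <;> linarith
    change ∑ l ∈ inn (G.A v T) h, bb l * bb l ≤
      (∑ l ∈ inn (G.A v T) h, bb l) * (∑ l ∈ inn (G.A v T) h, bb l)
    linarith
  have hg12 : ∀ h, (inn D1 h).card ≤ (inn (G.D v T) h).card :=
    fun h => card_le_card (hinn_sub h hD1)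
  have hgg : ∀ h, 0 ≤ g1 h * g2 h - g1 h := by
    intro h
    change (0 : ℝ) ≤ ((inn D1 h).card : ℝ) * ((inn (G.D v T) h).card : ℝ) - ((inn D1 h).card : ℝ)
    have h1 := nat_sq_sub (inn D1 h).card
    have h2 : ((inn D1 h).card : ℝ) ≤ ((inn (G.D v T) h).card : ℝ) := by exact_mod_cast hg12 h
    have h3 : (0 : ℝ) ≤ ((inn D1 h).card : ℝ) := by positivity
    nlinarith
  -- pair sums
  have P1 := G.pairs v (G.A v T) D1 hAsub hD1sub bb (fun _ => 1)
  have P2 := G.pairs v (G.A v T) (G.D v T) hAsub hDsub bb (fun _ => 1)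
  have P3 := G.pairs v (G.A v T) (G.A v T) hAsub hAsub bb bb
  have P4 := G.pairs v D1 D1 hD1sub hD1sub (fun _ => 1) (fun _ => 1)
  have P5 := G.pairs v (G.D v T) (G.D v T) hDsub hDsub (fun _ => 1) (fun _ => 1)
  have P6 := G.pairs v D1 (G.D v T) hD1sub hDsub (fun _ => 1) (fun _ => 1)
  rw [hAD1] at P1
  rw [hAD] at P2
  rw [inter_self] at P3 P4 P5
  rw [Finset.inter_eq_left.mpr hD1] at P6
  have hinn_empty : ∀ h : Finset P, inn (∅ : Finset (Finset P)) h = ∅ := by
    intro h; simp [inn]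
  simp only [hinn_empty, sum_empty, sub_zero, sum_const, nsmul_eq_mul, mul_one] at P1 P2 P4 P5 P6
  have hrestrict : ∀ g : Finset P → ℝ, ∑ h ∈ s, z h * g h = ∑ h ∈ G.Hv v, z h * g h := by
    intro g
    rw [hs]
    apply sum_filter_of_ne
    intro h _ hne
    by_contra hcon
    rw [Finset.not_nonempty_iff_eq_empty] at hcon
    apply hne
    rw [hz]; simp [hcon]
  have hsub_le : ∀ g : Finset P → ℝ, (∀ h, 0 ≤ g h) → ∑ h ∈ s, g h ≤ ∑ h ∈ G.Hv v, g h := by
    intro g hg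
    apply sum_le_sum_of_subset_of_nonneg (filter_subset _ _)
    intro h _ _; exact hg h
  have a1 : ∑ h ∈ s, z h * g1 h = V * (D1.card : ℝ) := by
    rw [hrestrict]; exact P1
  have a2 : ∑ h ∈ s, z h * g2 h = V * ((G.D v T).card : ℝ) := by
    rw [hrestrict]; exact P2
  have hb : ∑ h ∈ s, (z h ^ 2 - q h) ≤ V ^ 2 := by
    have e1 : ∑ h ∈ s, (z h ^ 2 - q h) ≤ ∑ h ∈ G.Hv v, (z h * z h - q h) := by
      have := hsub_le (fun h => z h * z h - q h) (fun h => by have := hqz h; linarith)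
      refine le_trans (le_of_eq ?_) this
      apply sum_congr rfl; intro h _; ring
    have e2 : ∑ h ∈ G.Hv v, (z h * z h - q h) = V * V - ∑ j ∈ G.A v T, bb j * bb j := P3
    have e3 : 0 ≤ ∑ j ∈ G.A v T, bb j * bb j := sum_nonneg (fun _ _ => mul_self_nonneg _)
    rw [e2] at e1
    linarith
  have c1 : ∑ h ∈ s, (g1 h ^ 2 - g1 h) ≤ (D1.card : ℝ) ^ 2 := by
    have e1 : ∑ h ∈ s, (g1 h ^ 2 - g1 h) ≤ ∑ h ∈ G.Hv v, (g1 h * g1 h - g1 h) := by
      have := hsub_le (fun h => g1 h * g1 h - g1 h) (fun h => nat_sq_sub _)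
      refine le_trans (le_of_eq ?_) this
      apply sum_congr rfl; intro h _; ring
    have e2 : ∑ h ∈ G.Hv v, (g1 h * g1 h - g1 h) = (D1.card : ℝ) * D1.card - D1.card := P4
    rw [e2] at e1
    have : (0 : ℝ) ≤ D1.card := by positivity
    linarith
  have c2 : ∑ h ∈ s, (g2 h ^ 2 - g2 h) ≤ ((G.D v T).card : ℝ) ^ 2 := by
    have e1 : ∑ h ∈ s, (g2 h ^ 2 - g2 h) ≤ ∑ h ∈ G.Hv v, (g2 h * g2 h - g2 h) := by
      have := hsub_le (fun h => g2 h * g2 h - g2 h) (fun h => nat_sq_sub _)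
      refine le_trans (le_of_eq ?_) this
      apply sum_congr rfl; intro h _; ring
    have e2 : ∑ h ∈ G.Hv v, (g2 h * g2 h - g2 h) =
      ((G.D v T).card : ℝ) * (G.D v T).card - (G.D v T).card := P5
    rw [e2] at e1
    have : (0 : ℝ) ≤ (G.D v T).card := by positivity
    linarith
  have hEsub : G.E v T D1 ⊆ G.Hv v := filter_subset _ _
  have hEdisj : Disjoint (G.E v T D1) s := by
    rw [Finset.disjoint_left]
    intro h hE hS
    unfold Geo.E at hE
    rw [mem_filter] at hE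
    rw [hs, mem_filter] at hS
    rw [hE.2.1] at hS
    exact absurd hS.2 (by simp)
  have hd : ((G.E v T D1).card : ℝ) + ∑ h ∈ s, (g1 h * g2 h - g1 h) ≤
      (D1.card : ℝ) * ((G.D v T).card : ℝ) := by
    have e1 : ((G.E v T D1).card : ℝ) ≤ ∑ h ∈ G.E v T D1, (g1 h * g2 h - g1 h) := by
      have : ((G.E v T D1).card : ℝ) = ∑ h ∈ G.E v T D1, (1 : ℝ) := by simp
      rw [this]
      apply sum_le_sum
      intro h hh
      unfold Geo.E at hh
      rw [mem_filter] at hh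
      obtain ⟨hhv, hA, hne⟩ := hh
      have k1 : 1 ≤ (inn D1 h).card := card_pos.mpr hne
      have k2 : 2 ≤ (inn (G.D v T) h).card := by
        refine (G.two_lines hhv).trans (card_le_card ?_)
        intro l hl
        rw [mem_inn] at hl ⊢
        refine ⟨?_, hl.2⟩
        rw [G.mem_D]
        refine ⟨G.mem_Lv.mp hl.1, ?_⟩
        by_contra hcon
        push Not at hcon
        have : l ∈ inn (G.A v T) h := mem_inn.mpr ⟨G.mem_A.mpr ⟨G.mem_Lv.mp hl.1, hcon⟩, hl.2⟩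
        rw [hA] at this
        exact absurd this (notMem_empty _)
      have k1' : (1 : ℝ) ≤ ((inn D1 h).card : ℝ) := by exact_mod_cast k1
      have k2' : (2 : ℝ) ≤ ((inn (G.D v T) h).card : ℝ) := by exact_mod_cast k2
      change (1 : ℝ) ≤ ((inn D1 h).card : ℝ) * ((inn (G.D v T) h).card : ℝ) - ((inn D1 h).card : ℝ)
      nlinarith
    have e2 : ∑ h ∈ G.E v T D1, (g1 h * g2 h - g1 h) + ∑ h ∈ s, (g1 h * g2 h - g1 h) ≤
        ∑ h ∈ G.Hv v, (g1 h * g2 h - g1 h) := by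
      rw [← sum_union hEdisj]
      apply sum_le_sum_of_subset_of_nonneg
      · exact union_subset hEsub (filter_subset _ _)
      · intro h _ _; exact hgg h
    have e3 : ∑ h ∈ G.Hv v, (g1 h * g2 h - g1 h) =
      (D1.card : ℝ) * (G.D v T).card - D1.card := P6
    have : (0 : ℝ) ≤ D1.card := by positivity
    linarith
  have hNt : ∑ h ∈ s, N h ≤ t := (hsub_le N (fun h => by rw [hN]; positivity)).trans (G.sum_Nf v)
  have hg2m : ∀ h ∈ s, g2 h ≤ m h := by
    intro h hh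
    obtain ⟨j, hj, hjβ⟩ := hβspec h hh
    have hjLv : j ∈ inn (G.Lv v) h := hinn_sub h hAsub hj
    have e1 := G.sum_bb_plane (G.mem_Hv.mp (hsHv h hh)).1 v (G.mem_Hv.mp (hsHv h hh)).2
    rw [← Finset.add_sum_erase _ _ hjLv] at e1
    have e2 : g2 h ≤ ∑ l ∈ (inn (G.Lv v) h).erase j, bb l := by
      have e3 : g2 h = ∑ l ∈ inn (G.D v T) h, (1 : ℝ) := by rw [hg2]; simp
      rw [e3]
      have e4 : ∑ l ∈ inn (G.D v T) h, (1 : ℝ) ≤ ∑ l ∈ inn (G.D v T) h, bb l := by
        apply sum_le_sum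
        intro l hl
        exact hbbpos l (hDsub (mem_inn.mp hl).1)
      refine e4.trans ?_
      apply sum_le_sum_of_subset_of_nonneg
      · intro l hl
        rw [mem_erase]
        refine ⟨?_, hinn_sub h hDsub hl⟩
        rintro rfl
        have h1 := (G.mem_D.mp (mem_inn.mp hl).1).2
        have h2 := (G.mem_A.mp (mem_inn.mp hj).1).2
        linarith
      · intro l hl _
        have := hbbpos l (mem_inn.mp (mem_erase.mp hl).2).1
        linarith
    change g2 h ≤ (h.card : ℝ) - 1 - β h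
    rw [hjβ]
    linarith
  have hg12' : ∀ h, g1 h ≤ g2 h := fun h => by
    change ((inn D1 h).card : ℝ) ≤ ((inn (G.D v T) h).card : ℝ)
    exact_mod_cast hg12 h
  apply numeric s z g1 g2 N q β m V (D1.card : ℝ) ((G.D v T).card : ℝ) t ((G.E v T D1).card : ℝ)
    hV (by exact_mod_cast hD1pos) (by exact_mod_cast (lt_of_lt_of_le hD1pos hD12)) a1 a2 hb c1 c2 hd
    hNt (fun h _ => hznn h) ?_ (fun h _ => hqnn h) ?_ (fun h _ => by rw [sq]; exact hqz h) ?_
    (fun h hh => (hg12' h).trans (hg2m h hh)) hg2m ?_ ?_ (fun h _ => by rw [hg1]; positivity)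
    (fun h _ => hg12' h) (fun h _ => by rw [sq]; exact nat_sq_sub _)
    (fun h _ => by rw [sq]; exact nat_sq_sub _) (fun h _ => hgg h) hr1t hr1V
  · -- z ≤ 2N
    intro h hh
    have e1 := G.F2 (hsHv h hh)
    have e2 : z h ≤ ∑ l ∈ inn (G.A v T) h, 2 * (bb l - 1) := by
      apply sum_le_sum
      intro l hl
      have := (G.mem_A.mp (mem_inn.mp hl).1).2
      linarith
    have e3 : ∑ l ∈ inn (G.A v T) h, 2 * (bb l - 1) ≤ ∑ l ∈ inn (G.Lv v) h, 2 * (bb l - 1) := by
      apply sum_le_sum_of_subset_of_nonneg (hinn_sub h hAsub)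
      intro l hl _
      have := hbbpos l (mem_inn.mp hl).1
      linarith
    rw [← mul_sum, ← mul_sum] at e3
    rw [← mul_sum] at e2
    change z h ≤ 2 * ((G.Nf v h).card : ℝ)
    linarith
  · -- q ≤ β z
    intro h hh
    change ∑ l ∈ inn (G.A v T) h, bb l * bb l ≤ β h * ∑ l ∈ inn (G.A v T) h, bb l
    rw [mul_sum]
    apply sum_le_sum
    intro l hl
    have h1 := hbbpos l (hAsub (mem_inn.mp hl).1)
    exact mul_le_mul_of_nonneg_right (hβmax h hh l hl) (by linarith)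
  · -- z ≤ β + m
    intro h hh
    have e1 := G.sum_bb_plane (G.mem_Hv.mp (hsHv h hh)).1 v (G.mem_Hv.mp (hsHv h hh)).2
    have e2 : z h ≤ ∑ l ∈ inn (G.Lv v) h, bb l := by
      apply sum_le_sum_of_subset_of_nonneg (hinn_sub h hAsub)
      intro l hl _
      have := hbbpos l (mem_inn.mp hl).1
      linarith
    change z h ≤ β h + ((h.card : ℝ) - 1 - β h)
    linarith
  · -- F3
    intro h hh
    obtain ⟨j, hj, hjβ⟩ := hβspec h hh
    have hjLv : j ∈ inn (G.Lv v) h := hinn_sub h hAsub hj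
    have e1 := G.F3 (hsHv h hh) hjLv
    have e2 : (h.card : ℝ) - j.card = m h := by
      change (h.card : ℝ) - j.card = (h.card : ℝ) - 1 - β h
      rw [hjβ]; unfold bb; ring
    rw [e2, ← hjβ] at e1
    exact e1
  · intro h hh
    obtain ⟨j, hj, hjβ⟩ := hβspec h hh
    rw [hjβ]
    exact hbbpos j (hAsub (mem_inn.mp hj).1)

end Pool.Agent.Helper123.PLP
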