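import Mathlib
import Pool.Agent.Helper123.PLP.Key

namespace Pool.Agent.Helper123.PLP

open Finset

set_option linter.unusedSectionVars false

lemma geom_aux (k0 : ℕ) (K : ℕ) :
    ∑ κ ∈ range K, (if k0 ≤ κ then (1 / 2 : ℝ) ^ κ else 0) =
      2 * (1 / 2 : ℝ) ^ k0 - 2 * (1 / 2 : ℝ) ^ (max K k0) := by
  induction K with
  | zero => simp
  | succ K ih =>
    rw [sum_range_succ, ih]
    by_cases h : k0 ≤ K
    · rw [if_pos h, max_eq_left h, max_eq_left (by omega), pow_succ]; ring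
    · rw [if_neg h, max_eq_right (by omega), max_eq_right (by omega)]; ring

lemma geom (b : ℕ) (hb : 1 ≤ b) (K : ℕ) :
    ∑ κ ∈ range K, (if (b : ℝ) < 2 ^ (κ + 1) then (1 / 2 : ℝ) ^ κ else 0) ≤ 4 / b := by
  have hb0 : b ≠ 0 := by omega
  set k0 := Nat.log 2 b with hk0
  have h1 : 2 ^ k0 ≤ b := Nat.pow_log_le_self 2 hb0
  have h2 : b < 2 ^ (k0 + 1) := Nat.lt_pow_succ_log_self (by norm_num) b
  have h3 : ∑ κ ∈ range K, (if (b : ℝ) < 2 ^ (κ + 1) then (1 / 2 : ℝ) ^ κ else 0) ≤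
      ∑ κ ∈ range K, (if k0 ≤ κ then (1 / 2 : ℝ) ^ κ else 0) := by
    apply sum_le_sum
    intro κ _
    by_cases hκ : k0 ≤ κ
    · rw [if_pos hκ]; split_ifs
      · exact le_rfl
      · positivity
    · rw [if_neg hκ, if_neg]
      push Not
      have : 2 ^ (κ + 1) ≤ 2 ^ k0 := Nat.pow_le_pow_right (by norm_num) (by omega)
      have : 2 ^ (κ + 1) ≤ b := this.trans h1
      exact_mod_cast this
  refine h3.trans ?_
  rw [geom_aux]
  have h4 : (0 : ℝ) ≤ 2 * (1 / 2 : ℝ) ^ (max K k0) := by positivity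
  have h5 : 2 * (1 / 2 : ℝ) ^ k0 ≤ 4 / b := by
    have hbpos : (0 : ℝ) < b := by exact_mod_cast hb
    rw [le_div_iff₀ hbpos]
    have h6 : (b : ℝ) ≤ 2 ^ (k0 + 1) := by exact_mod_cast h2.le
    have h7 : 2 * (1 / 2 : ℝ) ^ k0 * b ≤ 2 * (1 / 2 : ℝ) ^ k0 * 2 ^ (k0 + 1) :=
      mul_le_mul_of_nonneg_left h6 (by positivity)
    have h8 : 2 * (1 / 2 : ℝ) ^ k0 * 2 ^ (k0 + 1) = 4 := by
      rw [pow_succ, one_div, inv_pow]
      have : (2 : ℝ) ^ k0 ≠ 0 := by positivity
      field_simp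
      norm_num
    linarith
  linarith

variable {P : Type*} [Fintype P] [DecidableEq P] (G : Geo P)

lemma Geo.bb_eq {l : Finset P} (hl : l ∈ G.L) : bb l = ((l.card - 1 : ℕ) : ℝ) := by
  have := G.two_le l hl
  unfold bb
  rw [Nat.cast_sub (by omega)]; simp

lemma Geo.card_le_of_bb_lt {l : Finset P} (κ : ℕ) (h : bb l < 2 ^ (κ + 1)) :
    (l.card : ℝ) ≤ 2 ^ (κ + 1) := by
  unfold bb at h
  have h1 : (l.card : ℝ) < ((2 ^ (κ + 1) + 1 : ℕ) : ℝ) := by push_cast; linarith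
  have h2 : l.card < 2 ^ (κ + 1) + 1 := by exact_mod_cast h1
  have h3 : l.card ≤ 2 ^ (κ + 1) := by omega
  exact_mod_cast h3

/-- degree for short lines -/
noncomputable def Geo.rho (κ : ℕ) (v : P) : ℝ := ((G.D v (2 ^ (κ + 1))).card : ℝ)

/-- mass of long lines -/
noncomputable def Geo.VV (κ : ℕ) (v : P) : ℝ := ∑ l ∈ G.A v (2 ^ (κ + 1)), bb l

/-- sum of the reciprocals of the sizes of lines through v -/
noncomputable def Geo.lp (v : P) : ℝ := ∑ l ∈ G.Lv v, 1 / (l.card : ℝ)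

lemma Geo.card_pos_of_mem {l : Finset P} (hl : l ∈ G.L) : (0 : ℝ) < l.card := by
  have := G.two_le l hl
  have : 0 < l.card := by omega
  exact_mod_cast this

lemma Geo.sum_lp : ∑ v : P, G.lp v = (G.L.card : ℝ) := by
  unfold Geo.lp Geo.Lv
  have e1 : ∀ v : P, ∑ l ∈ G.L.filter (fun l => v ∈ l), 1 / (l.card : ℝ) =
      ∑ l ∈ G.L, (if v ∈ l then 1 / (l.card : ℝ) else 0) := fun v => sum_filter _ _
  simp only [e1]
  rw [sum_comm]
  have e2 : ∀ l ∈ G.L, ∑ v : P, (if v ∈ l then 1 / (l.card : ℝ) else 0) = 1 := by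
    intro l hl
    rw [← sum_filter, sum_const, nsmul_eq_mul]
    have : (univ.filter (fun v => v ∈ l)) = l := by ext; simp
    rw [this]
    have := G.card_pos_of_mem hl
    field_simp
  rw [sum_congr rfl e2]; simp

lemma Geo.sum_rho_eq (κ : ℕ) : ∑ v : P, G.rho κ v =
    ∑ l ∈ G.L, (if bb l < 2 ^ (κ + 1) then (l.card : ℝ) else 0) := by
  unfold Geo.rho Geo.D Geo.Lv
  have e1 : ∀ v : P, (((G.L.filter (fun l => v ∈ l)).filter
      (fun l => bb l < 2 ^ (κ + 1))).card : ℝ) =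
      ∑ l ∈ G.L, (if bb l < 2 ^ (κ + 1) then (if v ∈ l then 1 else 0) else 0) := by
    intro v
    rw [← sum_filter, ← sum_filter, sum_const, nsmul_eq_mul, mul_one, filter_filter, filter_filter]
    congr 2
    ext l
    simp only [mem_filter]
    tauto
  simp only [e1]
  rw [sum_comm]
  apply sum_congr rfl
  intro l _
  split_ifs with h
  · rw [← sum_filter, sum_const, nsmul_eq_mul, mul_one]
    have : (univ.filter (fun v => v ∈ l)) = l := by ext; simp
    rw [this]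
  · simp

lemma Geo.sum_rho_le (κ : ℕ) : ∑ v : P, G.rho κ v ≤ 2 ^ (κ + 1) * (G.L.card : ℝ) := by
  rw [G.sum_rho_eq]
  have : ∑ l ∈ G.L, (if bb l < 2 ^ (κ + 1) then (l.card : ℝ) else 0) ≤
      ∑ l ∈ G.L, (2 : ℝ) ^ (κ + 1) := by
    apply sum_le_sum
    intro l _
    split_ifs with h
    · exact Geo.card_le_of_bb_lt κ h
    · positivity
  refine this.trans ?_
  rw [sum_const, nsmul_eq_mul]; linarith

lemma Geo.sum_split (κ : ℕ) (v : P) :
    G.VV κ v + ∑ l ∈ G.D v (2 ^ (κ + 1)), bb l = (Fintype.card P : ℝ) - 1 := by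
  rw [← G.sum_bb_univ v]
  unfold Geo.VV Geo.A Geo.D
  rw [← sum_filter_add_sum_filter_not (G.Lv v) (fun l => (2 : ℝ) ^ (κ + 1) ≤ bb l)]
  simp only [not_le]

lemma Geo.lp_bad (κ : ℕ) (v : P) (hv : G.VV κ v < ((Fintype.card P : ℝ) - 1) / 2) :
    ((Fintype.card P : ℝ) - 1) / (2 * (2 ^ (κ + 1)) ^ 2) ≤ G.lp v := by
  have h1 := G.sum_split κ v
  have h2 : ((Fintype.card P : ℝ) - 1) / 2 ≤ ∑ l ∈ G.D v (2 ^ (κ + 1)), bb l := by linarith
  have h3 : ∑ l ∈ G.D v (2 ^ (κ + 1)), bb l / (2 ^ (κ + 1)) ^ 2 ≤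
      ∑ l ∈ G.D v (2 ^ (κ + 1)), 1 / (l.card : ℝ) := by
    apply sum_le_sum
    intro l hl
    rw [G.mem_D] at hl
    have hc := Geo.card_le_of_bb_lt κ hl.2
    have hp := G.card_pos_of_mem hl.1.1
    rw [div_le_div_iff₀ (by positivity) hp]
    have hb : bb l ≤ 2 ^ (κ + 1) := hl.2.le
    have hb1 := G.bb_ge hl.1.1
    calc bb l * (l.card : ℝ) ≤ 2 ^ (κ + 1) * 2 ^ (κ + 1) :=
          mul_le_mul hb hc hp.le (by positivity)
      _ = 1 * (2 ^ (κ + 1)) ^ 2 := by ring
  have h4 : ∑ l ∈ G.D v (2 ^ (κ + 1)), 1 / (l.card : ℝ) ≤ G.lp v := by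
    unfold Geo.lp
    apply sum_le_sum_of_subset_of_nonneg (filter_subset _ _)
    intro l _ _
    positivity
  rw [← sum_div] at h3
  have h5 : ((Fintype.card P : ℝ) - 1) / (2 * (2 ^ (κ + 1)) ^ 2) =
      (((Fintype.card P : ℝ) - 1) / 2) / (2 ^ (κ + 1)) ^ 2 := by
    rw [div_div]
  rw [h5]
  have h6 : (((Fintype.card P : ℝ) - 1) / 2) / (2 ^ (κ + 1)) ^ 2 ≤
      (∑ l ∈ G.D v (2 ^ (κ + 1)), bb l) / (2 ^ (κ + 1)) ^ 2 := by
    apply div_le_div_of_nonneg_right h2; positivity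
  linarith

/-- total weight of nonincident (point, line) pairs inside planes -/
lemma Geo.total : ∑ h ∈ G.H, ∑ v ∈ h, G.lp v * ((G.Nf v h).card : ℝ) ≤ (G.L.card : ℝ) ^ 2 := by
  have e1 : ∑ h ∈ G.H, ∑ v ∈ h, G.lp v * ((G.Nf v h).card : ℝ) =
      ∑ v : P, ∑ h ∈ G.Hv v, G.lp v * ((G.Nf v h).card : ℝ) := by
    unfold Geo.Hv
    have e2 : ∀ v : P, ∑ h ∈ G.H.filter (fun h => v ∈ h), G.lp v * ((G.Nf v h).card : ℝ) =
        ∑ h ∈ G.H, (if v ∈ h then G.lp v * ((G.Nf v h).card : ℝ) else 0) := fun v => sum_filter _ _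
    simp only [e2]
    rw [sum_comm]
    apply sum_congr rfl
    intro h _
    rw [← sum_filter]
    have : (univ.filter (fun v => v ∈ h)) = h := by ext; simp
    rw [this]
  rw [e1]
  have e3 : ∀ v ∈ (univ : Finset P), ∑ h ∈ G.Hv v, G.lp v * ((G.Nf v h).card : ℝ) ≤
      G.lp v * (G.L.card : ℝ) := by
    intro v _
    rw [← mul_sum]
    apply mul_le_mul_of_nonneg_left (G.sum_Nf v)
    unfold Geo.lp
    apply sum_nonneg; intros; positivity
  refine (sum_le_sum e3).trans ?_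
  rw [← sum_mul, G.sum_lp]
  nlinarith

/-- first lines -/
noncomputable def Geo.D1 (κ : ℕ) (v : P) : Finset (Finset P) :=
  (G.D v (2 ^ (κ + 1))).filter (fun l => (2 : ℝ) ^ κ ≤
    4 * ((l.filter (fun u => u ≠ v ∧ G.rho κ v ≤ G.rho κ u)).card : ℝ))

lemma Geo.D1_sub (κ : ℕ) (v : P) : G.D1 κ v ⊆ G.D v (2 ^ (κ + 1)) := filter_subset _ _

lemma Geo.rho_nonneg (κ : ℕ) (v : P) : 0 ≤ G.rho κ v := by unfold Geo.rho; positivity

lemma Geo.D1_bound (κ : ℕ) (v : P) :
    ((G.D1 κ v).card : ℝ) * G.rho κ v ≤ 8 * (G.L.card : ℝ) := by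
  have h1 : ∑ l ∈ G.D1 κ v, ((2 : ℝ) ^ κ * G.rho κ v) ≤
      ∑ l ∈ G.D1 κ v, 4 * ∑ u ∈ l.erase v, G.rho κ u := by
    apply sum_le_sum
    intro l hl
    unfold Geo.D1 at hl
    rw [mem_filter] at hl
    have e1 : ((l.filter (fun u => u ≠ v ∧ G.rho κ v ≤ G.rho κ u)).card : ℝ) * G.rho κ v ≤
        ∑ u ∈ l.erase v, G.rho κ u := by
      have : ((l.filter (fun u => u ≠ v ∧ G.rho κ v ≤ G.rho κ u)).card : ℝ) * G.rho κ v =
          ∑ u ∈ l.filter (fun u => u ≠ v ∧ G.rho κ v ≤ G.rho κ u), G.rho κ v := by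
        rw [sum_const, nsmul_eq_mul]
      rw [this]
      refine (sum_le_sum (g := fun u => G.rho κ u) ?_).trans ?_
      · intro u hu
        rw [mem_filter] at hu
        exact hu.2.2
      · apply sum_le_sum_of_subset_of_nonneg
        · intro u hu
          rw [mem_filter] at hu
          rw [mem_erase]; exact ⟨hu.2.1, hu.1⟩
        · intro u _ _; exact G.rho_nonneg κ u
    have e2 := mul_le_mul_of_nonneg_right hl.2 (G.rho_nonneg κ v)
    nlinarith
  have h2 : ∑ l ∈ G.D1 κ v, ∑ u ∈ l.erase v, G.rho κ u ≤ ∑ u : P, G.rho κ u := by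
    rw [← sum_biUnion]
    · apply sum_le_sum_of_subset_of_nonneg (subset_univ _)
      intro u _ _; exact G.rho_nonneg κ u
    · intro l hl l' hl' hne
      change Disjoint (l.erase v) (l'.erase v)
      rw [Finset.disjoint_left]
      intro x hx hx'
      simp only [mem_erase] at hx hx'
      rw [mem_coe] at hl hl'
      have k1 := (G.mem_D.mp (G.D1_sub κ v hl)).1
      have k2 := (G.mem_D.mp (G.D1_sub κ v hl')).1
      exact hne (G.uniq_line l k1.1 l' k2.1 x v hx.1 hx.2 k1.2 hx'.2 k2.2)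
  have h3 := G.sum_rho_le κ
  rw [sum_const, nsmul_eq_mul, ← mul_sum] at h1
  have h4 : (2 : ℝ) ^ κ * (((G.D1 κ v).card : ℝ) * G.rho κ v) ≤ (2 : ℝ) ^ κ * (8 * (G.L.card : ℝ)) := by
    have : (2 : ℝ) ^ (κ + 1) = 2 * 2 ^ κ := by ring
    rw [this] at h3
    nlinarith
  exact le_of_mul_le_mul_left h4 (by positivity)

lemma Geo.E_bound (κ : ℕ) (v : P) (hn : 1 < Fintype.card P)
    (hv : ((Fintype.card P : ℝ) - 1) / 2 ≤ G.VV κ v) :
    ((G.E v (2 ^ (κ + 1)) (G.D1 κ v)).card : ℝ) * ((Fintype.card P : ℝ) - 1) ≤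
      192 * (G.L.card : ℝ) * G.rho κ v := by
  have hn' : (1 : ℝ) < (Fintype.card P : ℝ) := by exact_mod_cast hn
  have hVpos : 0 < G.VV κ v := by linarith
  have hle : ((G.D1 κ v).card : ℝ) ≤ G.rho κ v := by
    unfold Geo.rho; exact_mod_cast card_le_card (G.D1_sub κ v)
  have hsq : ((G.D1 κ v).card : ℝ) ^ 2 ≤ 8 * (G.L.card : ℝ) := by
    have h1 := G.D1_bound κ v
    have h2 : (0 : ℝ) ≤ ((G.D1 κ v).card : ℝ) := by positivity
    nlinarith
  have hr1V : ((G.D1 κ v).card : ℝ) ≤ 2 * G.VV κ v := by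
    have h1 : ((G.D1 κ v).card : ℝ) ≤ ∑ l ∈ G.Lv v, bb l := by
      have e1 : ((G.D1 κ v).card : ℝ) = ∑ l ∈ G.D1 κ v, (1 : ℝ) := by simp
      rw [e1]
      refine (sum_le_sum (g := fun l => bb l) ?_).trans ?_
      · intro l hl
        exact G.bb_ge (G.mem_D.mp (G.D1_sub κ v hl)).1.1
      · apply sum_le_sum_of_subset_of_nonneg
        · exact (G.D1_sub κ v).trans (filter_subset _ _)
        · intro l hl _
          have := G.bb_ge (G.mem_Lv.mp hl).1
          linarith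
    rw [G.sum_bb_univ] at h1
    linarith
  have hT : (2 : ℝ) ≤ 2 ^ (κ + 1) := by
    have : (1 : ℝ) ≤ 2 ^ κ := one_le_pow₀ (by norm_num)
    rw [pow_succ]; linarith
  have hkey := G.key v (2 ^ (κ + 1)) hT (G.D1 κ v) (G.D1_sub κ v) hVpos hsq hr1V
  change ((G.E v (2 ^ (κ + 1)) (G.D1 κ v)).card : ℝ) * G.VV κ v ≤
    40 * (G.L.card : ℝ) * (((G.D1 κ v).card : ℝ) + G.rho κ v)
      + 16 * (G.L.card : ℝ) * G.rho κ v at hkey
  have hE0 : (0 : ℝ) ≤ ((G.E v (2 ^ (κ + 1)) (G.D1 κ v)).card : ℝ) := by positivity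
  have ht0 : (0 : ℝ) ≤ (G.L.card : ℝ) := by positivity
  have e1 : ((G.E v (2 ^ (κ + 1)) (G.D1 κ v)).card : ℝ) * (((Fintype.card P : ℝ) - 1) / 2) ≤
      ((G.E v (2 ^ (κ + 1)) (G.D1 κ v)).card : ℝ) * G.VV κ v :=
    mul_le_mul_of_nonneg_left hv hE0
  have e2 : (G.L.card : ℝ) * ((G.D1 κ v).card : ℝ) ≤ (G.L.card : ℝ) * G.rho κ v :=
    mul_le_mul_of_nonneg_left hle ht0
  nlinarith

/-- a counting lemma: many elements of `S` have many elements above -/
lemma many_above {α : Type*} [DecidableEq α] (l S : Finset α) (f : α → ℝ) (hS : S ⊆ l)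
    (x : ℝ) (hx : 0 < x)
    (hSc : x / 2 + 1 ≤ (S.card : ℝ)) :
    x ≤ 4 * ((S.filter (fun v => x ≤
      4 * ((l.filter (fun u => u ≠ v ∧ f v ≤ f u)).card : ℝ))).card : ℝ) := by
  set C := S.filter (fun v => x ≤ 4 * ((l.filter (fun u => u ≠ v ∧ f v ≤ f u)).card : ℝ)) with hC
  set W := S.filter (fun v => ¬ (x ≤ 4 * ((l.filter (fun u => u ≠ v ∧ f v ≤ f u)).card : ℝ)))
    with hW
  have hsum : C.card + W.card = S.card := by
    rw [hC, hW]; exact card_filter_add_card_filter_not (s := S) _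
  have hsum' : (C.card : ℝ) + W.card = S.card := by exact_mod_cast hsum
  have hWb : (W.card : ℝ) ≤ x / 4 + 1 := by
    rcases Finset.eq_empty_or_nonempty W with h | h
    · rw [h]; simp; positivity
    · obtain ⟨v, hv, hmin⟩ := Finset.exists_min_image W f h
      have hv' := hv
      rw [hW, mem_filter] at hv'
      have h1 : W.erase v ⊆ l.filter (fun u => u ≠ v ∧ f v ≤ f u) := by
        intro u hu
        rw [mem_erase] at hu
        rw [mem_filter]
        refine ⟨hS (mem_filter.mp hu.2).1, hu.1, hmin u hu.2⟩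
      have h2 := card_le_card h1
      rw [card_erase_of_mem hv] at h2
      have h3 : (W.card : ℝ) ≤ ((l.filter (fun u => u ≠ v ∧ f v ≤ f u)).card : ℝ) + 1 := by
        have : W.card ≤ (l.filter (fun u => u ≠ v ∧ f v ≤ f u)).card + 1 := by omega
        exact_mod_cast this
      have h4 := hv'.2
      push Not at h4
      linarith
  linarith

theorem Geo.main (hn : 1 < Fintype.card P) :
    ((Fintype.card P : ℝ) - 1) * (G.H.card : ℝ) ≤ 6160 * (G.L.card : ℝ) ^ 2 := by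
  classical
  have hn' : (1 : ℝ) < (Fintype.card P : ℝ) := by exact_mod_cast hn
  -- longest lines
  have hex : ∀ h : Finset P, ∃ l : Finset P, h ∈ G.H →
      l ∈ inn G.L h ∧ ∀ k ∈ inn G.L h, bb k ≤ bb l := by
    intro h
    by_cases hh : h ∈ G.H
    · obtain ⟨l0, hl0, hl0h, -⟩ := G.nondeg h hh
      have hne : (inn G.L h).Nonempty := ⟨l0, mem_inn.mpr ⟨hl0, hl0h⟩⟩
      obtain ⟨l, hl, hmax⟩ := Finset.exists_max_image (inn G.L h) bb hne
      exact ⟨l, fun _ => ⟨hl, hmax⟩⟩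
    · exact ⟨∅, fun h' => absurd h' hh⟩
  choose L1 hL1 using hex
  set kap : Finset P → ℕ := fun h => Nat.log 2 ((L1 h).card - 1) with hkap
  have hL1L : ∀ h ∈ G.H, L1 h ∈ G.L := fun h hh => (mem_inn.mp (hL1 h hh).1).1
  have hL1h : ∀ h ∈ G.H, L1 h ⊆ h := fun h hh => (mem_inn.mp (hL1 h hh).1).2
  have hk1 : ∀ h ∈ G.H, (2 : ℝ) ^ kap h ≤ bb (L1 h) := by
    intro h hh
    rw [G.bb_eq (hL1L h hh)]
    have h2 := G.two_le _ (hL1L h hh)
    have : 2 ^ kap h ≤ (L1 h).card - 1 := Nat.pow_log_le_self 2 (by omega)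
    exact_mod_cast this
  have hk2 : ∀ h ∈ G.H, bb (L1 h) < (2 : ℝ) ^ (kap h + 1) := by
    intro h hh
    rw [G.bb_eq (hL1L h hh)]
    have : (L1 h).card - 1 < 2 ^ (kap h + 1) := Nat.lt_pow_succ_log_self (by norm_num) _
    exact_mod_cast this
  have hk3 : ∀ h ∈ G.H, kap h ∈ range (Fintype.card P + 1) := by
    intro h hh
    rw [mem_range]
    have h1 : kap h ≤ (L1 h).card - 1 := Nat.log_le_self 2 _
    have h2 : (L1 h).card ≤ Fintype.card P := card_le_univ _
    omega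
  set S : Finset P → Finset P := fun h =>
    (L1 h).filter (fun v => ((Fintype.card P : ℝ) - 1) / 2 ≤ G.VV (kap h) v) with hS
  set HG := G.H.filter (fun h => (L1 h).card < 2 * (S h).card) with hHG
  set HB := G.H.filter (fun h => ¬ ((L1 h).card < 2 * (S h).card)) with hHB
  have hHsum : (HG.card : ℝ) + HB.card = G.H.card := by
    have : HG.card + HB.card = G.H.card := by
      rw [hHG, hHB]; exact card_filter_add_card_filter_not (s := G.H) _
    exact_mod_cast this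
  -- bad planes
  have hbad : ((Fintype.card P : ℝ) - 1) * (HB.card : ℝ) ≤ 16 * (G.L.card : ℝ) ^ 2 := by
    have hb1 : ∀ h ∈ HB, ((Fintype.card P : ℝ) - 1) / 16 ≤
        ∑ v ∈ h, G.lp v * ((G.Nf v h).card : ℝ) := by
      intro h hh
      rw [hHB, mem_filter] at hh
      obtain ⟨hhH, hnot⟩ := hh
      push Not at hnot
      have hlpnn : ∀ v, 0 ≤ G.lp v := by
        intro v; unfold Geo.lp; apply sum_nonneg; intros; positivity
      set W := (L1 h).filter (fun v => ¬ (((Fintype.card P : ℝ) - 1) / 2 ≤ G.VV (kap h) v)) with hW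
      have hWS : (S h).card + W.card = (L1 h).card := by
        rw [hW]; exact card_filter_add_card_filter_not (s := L1 h) _
      have hWc : (L1 h).card ≤ 2 * W.card := by omega
      have hWc' : ((L1 h).card : ℝ) ≤ 2 * W.card := by exact_mod_cast hWc
      have hb := hk1 h hhH
      have hWc2 : (2 : ℝ) ^ kap h / 2 ≤ W.card := by
        have : bb (L1 h) = ((L1 h).card : ℝ) - 1 := rfl
        linarith
      have step1 : ∑ v ∈ W, G.lp v * ((G.Nf v h).card : ℝ) ≤
          ∑ v ∈ h, G.lp v * ((G.Nf v h).card : ℝ) := by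
        apply sum_le_sum_of_subset_of_nonneg
        · exact (filter_subset _ _).trans (hL1h h hhH)
        · intro v _ _; exact mul_nonneg (hlpnn v) (by positivity)
      have step2 : ∑ v ∈ W, (((Fintype.card P : ℝ) - 1) / (2 * (2 ^ (kap h + 1)) ^ 2)) *
          (2 : ℝ) ^ kap h ≤ ∑ v ∈ W, G.lp v * ((G.Nf v h).card : ℝ) := by
        apply sum_le_sum
        intro v hv
        rw [hW, mem_filter] at hv
        have k1 := G.lp_bad (kap h) v (lt_of_not_ge hv.2)
        have hvh : h ∈ G.Hv v := G.mem_Hv.mpr ⟨hhH, hL1h h hhH hv.1⟩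
        have k2 := G.F2' hvh (j := L1 h)
          (mem_inn.mpr ⟨G.mem_Lv.mpr ⟨hL1L h hhH, hv.1⟩, hL1h h hhH⟩)
        apply mul_le_mul k1 (hb.trans k2) (by positivity) (hlpnn v)
      rw [sum_const, nsmul_eq_mul] at step2
      have step3 : ((Fintype.card P : ℝ) - 1) / 16 ≤ (W.card : ℝ) *
          ((((Fintype.card P : ℝ) - 1) / (2 * (2 ^ (kap h + 1)) ^ 2)) * (2 : ℝ) ^ kap h) := by
        have hp : (0 : ℝ) < 2 ^ kap h := by positivity
        have hnn : 0 ≤ (((Fintype.card P : ℝ) - 1) / (2 * (2 ^ (kap h + 1)) ^ 2)) * (2 : ℝ) ^ kap h := by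
          apply mul_nonneg _ hp.le
          apply div_nonneg (by linarith) (by positivity)
        refine le_trans (le_of_eq ?_) (mul_le_mul_of_nonneg_right hWc2 hnn)
        rw [pow_succ]
        field_simp
        ring
      linarith
    have hb2 : ∑ h ∈ HB, ((Fintype.card P : ℝ) - 1) / 16 ≤ (G.L.card : ℝ) ^ 2 := by
      refine (sum_le_sum hb1).trans (le_trans ?_ G.total)
      apply sum_le_sum_of_subset_of_nonneg (filter_subset _ _)
      intro h _ _
      apply sum_nonneg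
      intro v _
      apply mul_nonneg _ (by positivity)
      unfold Geo.lp; apply sum_nonneg; intros; positivity
    rw [sum_const, nsmul_eq_mul] at hb2
    linarith
  -- good planes
  have hgood : ((Fintype.card P : ℝ) - 1) * (HG.card : ℝ) ≤ 6144 * (G.L.card : ℝ) ^ 2 := by
    set C : Finset P → Finset P := fun h => (S h).filter (fun v => (2 : ℝ) ^ kap h ≤
      4 * (((L1 h).filter (fun u => u ≠ v ∧ G.rho (kap h) v ≤ G.rho (kap h) u)).card : ℝ)) with hC
    have hg1 : ∀ h ∈ HG, (1 : ℝ) ≤ ∑ v ∈ C h, 4 * (1 / 2 : ℝ) ^ kap h := by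
      intro h hh
      rw [hHG, mem_filter] at hh
      obtain ⟨hhH, hlt⟩ := hh
      have hp : (0 : ℝ) < 2 ^ kap h := by positivity
      have hma := many_above (L1 h) (S h) (G.rho (kap h)) (filter_subset _ _) ((2 : ℝ) ^ kap h) hp
        (by
          have h1 : (L1 h).card + 1 ≤ 2 * (S h).card := hlt
          have h2 : ((L1 h).card : ℝ) + 1 ≤ 2 * (S h).card := by exact_mod_cast h1
          have h3 := hk1 h hhH
          have : bb (L1 h) = ((L1 h).card : ℝ) - 1 := rfl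
          linarith)
      rw [sum_const, nsmul_eq_mul]
      have h4 : (2 : ℝ) ^ kap h ≤ 4 * ((C h).card : ℝ) := hma
      have h5 : (2 : ℝ) ^ kap h * (1 / 2 : ℝ) ^ kap h = 1 := by
        rw [← mul_pow]; norm_num
      have h6 : (2 : ℝ) ^ kap h * (1 / 2 : ℝ) ^ kap h ≤ 4 * ((C h).card : ℝ) * (1 / 2 : ℝ) ^ kap h :=
        mul_le_mul_of_nonneg_right h4 (by positivity)
      linarith
    have hg2 : (HG.card : ℝ) ≤ ∑ h ∈ HG, ∑ v ∈ C h, 4 * (1 / 2 : ℝ) ^ kap h := by
      have : (HG.card : ℝ) = ∑ h ∈ HG, (1 : ℝ) := by simp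
      rw [this]; exact sum_le_sum hg1
    -- regroup
    have hg3 : ∑ h ∈ HG, ∑ v ∈ C h, 4 * (1 / 2 : ℝ) ^ kap h =
        ∑ κ ∈ range (Fintype.card P + 1), ∑ v : P, ∑ h ∈ HG,
          (if kap h = κ ∧ v ∈ C h then 4 * (1 / 2 : ℝ) ^ κ else 0) := by
      have e1 : ∀ κ ∈ range (Fintype.card P + 1), ∑ v : P, ∑ h ∈ HG,
          (if kap h = κ ∧ v ∈ C h then 4 * (1 / 2 : ℝ) ^ κ else 0) =
          ∑ h ∈ HG, (if kap h = κ then ∑ v ∈ C h, 4 * (1 / 2 : ℝ) ^ κ else 0) := by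
        intro κ _
        rw [sum_comm]
        apply sum_congr rfl
        intro h _
        by_cases hk : kap h = κ
        · simp only [hk, true_and, if_true]
          rw [← sum_filter]
          congr 1
          ext v; simp
        · simp [hk]
      rw [sum_congr rfl e1, sum_comm]
      apply sum_congr rfl
      intro h hh
      rw [sum_ite_eq]
      rw [if_pos (hk3 h (mem_filter.mp hh).1)]
    have hg4 : ∀ κ ∈ range (Fintype.card P + 1), ∀ v ∈ (univ : Finset P),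
        ((Fintype.card P : ℝ) - 1) * ∑ h ∈ HG,
          (if kap h = κ ∧ v ∈ C h then 4 * (1 / 2 : ℝ) ^ κ else 0) ≤
        (768 * (G.L.card : ℝ)) * ((1 / 2 : ℝ) ^ κ * G.rho κ v) := by
      intro κ _ v _
      rw [← sum_filter, sum_const, nsmul_eq_mul]
      by_cases hv : ((Fintype.card P : ℝ) - 1) / 2 ≤ G.VV κ v
      · have hsub : HG.filter (fun h => kap h = κ ∧ v ∈ C h) ⊆
            G.E v (2 ^ (κ + 1)) (G.D1 κ v) := by
          intro h hh
          rw [mem_filter] at hh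
          obtain ⟨hhG, hkk, hvC⟩ := hh
          rw [hHG, mem_filter] at hhG
          obtain ⟨hhH, hlt⟩ := hhG
          have hvC' : v ∈ S h ∧ (2 : ℝ) ^ kap h ≤
            4 * (((L1 h).filter (fun u => u ≠ v ∧ G.rho (kap h) v ≤ G.rho (kap h) u)).card : ℝ) :=
            mem_filter.mp hvC
          have hvL : v ∈ L1 h := (mem_filter.mp hvC'.1).1
          have hvh : v ∈ h := hL1h h hhH hvL
          unfold Geo.E
          rw [mem_filter]
          refine ⟨G.mem_Hv.mpr ⟨hhH, hvh⟩, ?_, L1 h, ?_⟩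
          · rw [Finset.eq_empty_iff_forall_notMem]
            intro l hl
            rw [mem_inn, G.mem_A] at hl
            have k1 := (hL1 h hhH).2 l (mem_inn.mpr ⟨hl.1.1.1, hl.2⟩)
            have k2 := hk2 h hhH
            rw [hkk] at k2
            linarith [hl.1.2]
          · rw [mem_inn]
            refine ⟨?_, hL1h h hhH⟩
            unfold Geo.D1
            rw [mem_filter, G.mem_D]
            refine ⟨⟨⟨hL1L h hhH, hvL⟩, ?_⟩, ?_⟩
            · have k2 := hk2 h hhH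
              rwa [hkk] at k2
            · have k3 := hvC'.2
              rwa [hkk] at k3
        have hcard : ((HG.filter (fun h => kap h = κ ∧ v ∈ C h)).card : ℝ) ≤
            ((G.E v (2 ^ (κ + 1)) (G.D1 κ v)).card : ℝ) := by exact_mod_cast card_le_card hsub
        have hE := G.E_bound κ v hn hv
        have hpw : (0 : ℝ) ≤ 4 * (1 / 2 : ℝ) ^ κ := by positivity
        have e1 : ((Fintype.card P : ℝ) - 1) *
            (((HG.filter (fun h => kap h = κ ∧ v ∈ C h)).card : ℝ) * (4 * (1 / 2 : ℝ) ^ κ)) ≤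
            ((Fintype.card P : ℝ) - 1) *
            (((G.E v (2 ^ (κ + 1)) (G.D1 κ v)).card : ℝ) * (4 * (1 / 2 : ℝ) ^ κ)) :=
          mul_le_mul_of_nonneg_left (mul_le_mul_of_nonneg_right hcard hpw) (by linarith)
        have e2 : (((G.E v (2 ^ (κ + 1)) (G.D1 κ v)).card : ℝ) * ((Fintype.card P : ℝ) - 1)) *
            (4 * (1 / 2 : ℝ) ^ κ) ≤ (192 * (G.L.card : ℝ) * G.rho κ v) * (4 * (1 / 2 : ℝ) ^ κ) :=
          mul_le_mul_of_nonneg_right hE hpw
        linarith
      · have hempty : HG.filter (fun h => kap h = κ ∧ v ∈ C h) = ∅ := by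
          rw [Finset.filter_eq_empty_iff]
          rintro h _ ⟨hkk, hvC⟩
          have hvC' : v ∈ S h := (mem_filter.mp hvC).1
          have := (mem_filter.mp hvC').2
          rw [hkk] at this
          exact hv this
        rw [hempty]
        simp only [card_empty, Nat.cast_zero, zero_mul, mul_zero]
        have := G.rho_nonneg κ v
        positivity
    have hg5 : ((Fintype.card P : ℝ) - 1) * (HG.card : ℝ) ≤
        (768 * (G.L.card : ℝ)) * ∑ κ ∈ range (Fintype.card P + 1), (1 / 2 : ℝ) ^ κ * ∑ v : P, G.rho κ v := by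
      have e1 : ((Fintype.card P : ℝ) - 1) * (HG.card : ℝ) ≤ ((Fintype.card P : ℝ) - 1) *
          ∑ h ∈ HG, ∑ v ∈ C h, 4 * (1 / 2 : ℝ) ^ kap h :=
        mul_le_mul_of_nonneg_left hg2 (by linarith)
      refine e1.trans ?_
      rw [hg3, mul_sum, mul_sum]
      apply sum_le_sum
      intro κ hκ
      rw [mul_sum, mul_sum, mul_sum]
      apply sum_le_sum
      intro v hv
      exact hg4 κ hκ v hv
    have hg6 : ∑ κ ∈ range (Fintype.card P + 1), (1 / 2 : ℝ) ^ κ * ∑ v : P, G.rho κ v ≤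
        8 * (G.L.card : ℝ) := by
      have e1 : ∑ κ ∈ range (Fintype.card P + 1), (1 / 2 : ℝ) ^ κ * ∑ v : P, G.rho κ v =
          ∑ l ∈ G.L, (l.card : ℝ) * ∑ κ ∈ range (Fintype.card P + 1),
            (if bb l < 2 ^ (κ + 1) then (1 / 2 : ℝ) ^ κ else 0) := by
        have e2 : ∀ κ ∈ range (Fintype.card P + 1), (1 / 2 : ℝ) ^ κ * ∑ v : P, G.rho κ v =
            ∑ l ∈ G.L, (l.card : ℝ) * (if bb l < 2 ^ (κ + 1) then (1 / 2 : ℝ) ^ κ else 0) := by
          intro κ _
          rw [G.sum_rho_eq, mul_sum]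
          apply sum_congr rfl
          intro l _
          split_ifs <;> ring
        rw [sum_congr rfl e2, sum_comm]
        apply sum_congr rfl
        intro l _
        rw [mul_sum]
      rw [e1]
      have e3 : ∀ l ∈ G.L, (l.card : ℝ) * ∑ κ ∈ range (Fintype.card P + 1),
            (if bb l < 2 ^ (κ + 1) then (1 / 2 : ℝ) ^ κ else 0) ≤ 8 := by
        intro l hl
        have h2 := G.two_le l hl
        have hg := geom (l.card - 1) (by omega) (Fintype.card P + 1)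
        rw [← G.bb_eq hl] at hg
        have hb1 := G.bb_ge hl
        have hc : (l.card : ℝ) ≤ 2 * bb l := by
          have : bb l = (l.card : ℝ) - 1 := rfl
          linarith
        have hpos : (0 : ℝ) < bb l := by linarith
        calc (l.card : ℝ) * ∑ κ ∈ range (Fintype.card P + 1),
            (if bb l < 2 ^ (κ + 1) then (1 / 2 : ℝ) ^ κ else 0) ≤ (l.card : ℝ) * (4 / bb l) :=
              mul_le_mul_of_nonneg_left hg (by positivity)
          _ ≤ (2 * bb l) * (4 / bb l) := mul_le_mul_of_nonneg_right hc (by positivity)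
          _ = 8 := by field_simp; norm_num
      refine (sum_le_sum e3).trans ?_
      rw [sum_const, nsmul_eq_mul]; linarith
    have hg7 : (768 * (G.L.card : ℝ)) * ∑ κ ∈ range (Fintype.card P + 1), (1 / 2 : ℝ) ^ κ *
        ∑ v : P, G.rho κ v ≤ (768 * (G.L.card : ℝ)) * (8 * (G.L.card : ℝ)) :=
      mul_le_mul_of_nonneg_left hg6 (by positivity)
    nlinarith
  have : ((Fintype.card P : ℝ) - 1) * (G.H.card : ℝ) =
      ((Fintype.card P : ℝ) - 1) * (HG.card : ℝ) + ((Fintype.card P : ℝ) - 1) * (HB.card : ℝ) := by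
    rw [← hHsum]; ring
  linarith

end Pool.Agent.Helper123.PLP
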