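import Mathlib
import Pool.Agent.Helper123.PLP.Main

namespace Pool.Agent.Helper123.PLP

open Finset

set_option linter.unusedSectionVars false

section

variable {α : Type*} [Finite α] (M : Matroid α)

/-- the rank as a natural number -/
noncomputable def rkn (X : Set α) : ℕ := (M.eRk X).toNat

lemma rkn_cast (X : Set α) : (rkn M X : ℕ∞) = M.eRk X := by
  unfold rkn
  apply ENat.natCast_toNat
  rw [Matroid.eRk_ne_top_iff]
  exact M.isRkFinite_set X

lemma rkn_eq_iff (X : Set α) (k : ℕ) : M.eRk X = (k : ℕ∞) ↔ rkn M X = k := by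
  rw [← rkn_cast]; norm_cast

lemma rkn_mono {X Y : Set α} (h : X ⊆ Y) : rkn M X ≤ rkn M Y := by
  have := M.eRk_mono h
  rw [← rkn_cast, ← rkn_cast] at this
  exact_mod_cast this

lemma rkn_union (X Y : Set α) : rkn M (X ∪ Y) ≤ rkn M X + rkn M Y := by
  have := M.eRk_union_le_eRk_add_eRk X Y
  rw [← rkn_cast, ← rkn_cast, ← rkn_cast] at this
  exact_mod_cast this

lemma rkn_closure (X : Set α) : rkn M (M.closure X) = rkn M X := by
  unfold rkn; rw [M.eRk_closure_eq]

lemma flat_eq {F F' : Set α} (hF : M.IsFlat F) (hF' : M.IsFlat F') (h : F ⊆ F')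
    (hr : rkn M F' ≤ rkn M F) : F = F' := by
  have h1 : M.eRk F' ≤ M.eRk F := by
    rw [← rkn_cast, ← rkn_cast]; exact_mod_cast hr
  have := (M.isRkFinite_set F).closure_eq_closure_of_subset_of_eRk_ge_eRk h h1
  rwa [hF.closure, hF'.closure] at this

lemma flat_pt {F F' : Set α} (hF : M.IsFlat F) (hF' : M.IsFlat F') (h : ¬ F ⊆ F') :
    ∃ p : Set α, M.IsFlat p ∧ rkn M p = 1 ∧ p ⊆ F ∧ ¬ p ⊆ F' := by
  rw [Set.not_subset] at h
  obtain ⟨e, he, he'⟩ := h
  have heE : e ∈ M.E := hF.subset_ground he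
  have hnl : M.IsNonloop e := by
    rw [← Matroid.not_isLoop_iff]
    intro hl
    exact he' (hl.mem_of_isFlat hF')
  refine ⟨M.closure {e}, M.isFlat_closure _, ?_, ?_, ?_⟩
  · rw [rkn_closure, ← rkn_eq_iff, hnl.eRk_eq]; rfl
  · have : M.closure {e} ⊆ M.closure F := M.closure_subset_closure (by simpa using he)
    rwa [hF.closure] at this
  · intro hc
    exact he' (hc (M.mem_closure_self e heE))

lemma closure_sub {X F : Set α} (hF : M.IsFlat F) (h : X ⊆ F) : M.closure X ⊆ F := by
  have := M.closure_subset_closure h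
  rwa [hF.closure] at this

lemma sub_closure {X : Set α} (h : X ⊆ M.E) : X ⊆ M.closure X := M.subset_closure X h

lemma rk_pair {p q : Set α} (hp : M.IsFlat p) (hq : M.IsFlat q) (hp1 : rkn M p = 1)
    (hq1 : rkn M q = 1) (hne : p ≠ q) : rkn M (M.closure (p ∪ q)) = 2 := by
  have h1 := rkn_union M p q
  rw [rkn_closure]
  by_contra hcon
  have h2 : rkn M (p ∪ q) ≤ 1 := by omega
  have hsub : p ∪ q ⊆ M.closure (p ∪ q) :=
    sub_closure M (Set.union_subset hp.subset_ground hq.subset_ground)
  have e1 : p = M.closure (p ∪ q) := flat_eq M hp (M.isFlat_closure _)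
    (Set.subset_union_left.trans hsub) (by rw [rkn_closure]; omega)
  have e2 : q = M.closure (p ∪ q) := flat_eq M hq (M.isFlat_closure _)
    (Set.subset_union_right.trans hsub) (by rw [rkn_closure]; omega)
  exact hne (e1.trans e2.symm)

lemma rk_join {F p : Set α} (hF : M.IsFlat F) (hp : M.IsFlat p) (hF1 : rkn M F = 2)
    (hp1 : rkn M p = 1) (hne : ¬ p ⊆ F) : rkn M (M.closure (F ∪ p)) = 3 := by
  have h1 := rkn_union M F p
  rw [rkn_closure]
  by_contra hcon
  have h2 : rkn M (F ∪ p) ≤ 2 := by omega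
  have hsub : F ∪ p ⊆ M.closure (F ∪ p) :=
    sub_closure M (Set.union_subset hF.subset_ground hp.subset_ground)
  have e1 : F = M.closure (F ∪ p) := flat_eq M hF (M.isFlat_closure _)
    (Set.subset_union_left.trans hsub) (by rw [rkn_closure]; omega)
  apply hne
  rw [e1]
  exact Set.subset_union_right.trans hsub

/-- the points: rank one flats -/
abbrev Pt := {F : Set α // M.IsFlat F ∧ rkn M F = 1}

noncomputable instance : Fintype (Pt M) := Fintype.ofFinite _
noncomputable instance : DecidableEq (Pt M) := Classical.decEq _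

open Classical in
/-- the points in a flat -/
noncomputable def pts (F : Set α) : Finset (Pt M) := univ.filter (fun p => (p : Set α) ⊆ F)

lemma mem_pts {F : Set α} {p : Pt M} : p ∈ pts M F ↔ (p : Set α) ⊆ F := by
  unfold pts; simp

lemma pts_sub_iff {F F' : Set α} (hF : M.IsFlat F) (hF' : M.IsFlat F') :
    pts M F ⊆ pts M F' ↔ F ⊆ F' := by
  constructor
  · intro h
    by_contra hcon
    obtain ⟨p, hp, hp1, hpF, hpF'⟩ := flat_pt M hF hF' hcon
    have h1 : (⟨p, hp, hp1⟩ : Pt M) ∈ pts M F := (mem_pts M).mpr hpF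
    exact hpF' ((mem_pts M).mp (h h1))
  · intro h p hp
    rw [mem_pts] at hp ⊢
    exact hp.trans h

/-- the finset of rank `k` flats -/
noncomputable def flats (k : ℕ) : Finset (Set α) :=
  (Set.toFinite {F : Set α | M.IsFlat F ∧ rkn M F = k}).toFinset

lemma mem_flats {k : ℕ} {F : Set α} : F ∈ flats M k ↔ M.IsFlat F ∧ rkn M F = k := by
  unfold flats; simp

open Classical in
/-- the matroid as a space with lines and planes -/
noncomputable def toGeo : Geo (Pt M) where
  L := (flats M 2).image (pts M)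
  H := (flats M 3).image (pts M)
  two_le := by
    intro l hl
    rw [Finset.mem_image] at hl
    obtain ⟨F, hF, rfl⟩ := hl
    rw [mem_flats] at hF
    have h0 : ¬ F ⊆ M.closure ∅ := by
      intro h
      have := rkn_mono M h
      rw [rkn_closure] at this
      have h2 : rkn M (∅ : Set α) = 0 := by rw [← rkn_eq_iff]; simp
      omega
    obtain ⟨p, hp, hp1, hpF, -⟩ := flat_pt M hF.1 (M.isFlat_closure _) h0
    have h1 : ¬ F ⊆ p := by
      intro h
      have := rkn_mono M h
      omega
    obtain ⟨q, hq, hq1, hqF, hqp⟩ := flat_pt M hF.1 hp h1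
    have : 1 < (pts M F).card := by
      rw [Finset.one_lt_card]
      refine ⟨⟨p, hp, hp1⟩, (mem_pts M).mpr hpF, ⟨q, hq, hq1⟩, (mem_pts M).mpr hqF, ?_⟩
      intro h
      apply hqp
      have : p = q := congrArg Subtype.val h
      rw [this]
    omega
  ex_line := by
    intro x y hxy
    have hxy' : (x : Set α) ≠ y := fun h => hxy (Subtype.ext h)
    refine ⟨pts M (M.closure (x ∪ y)), ?_, ?_, ?_⟩
    · rw [Finset.mem_image]
      refine ⟨_, (mem_flats M).mpr ⟨M.isFlat_closure _, rk_pair M x.2.1 y.2.1 x.2.2 y.2.2 hxy'⟩, rfl⟩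
    · rw [mem_pts]
      exact Set.subset_union_left.trans
        (sub_closure M (Set.union_subset x.2.1.subset_ground y.2.1.subset_ground))
    · rw [mem_pts]
      exact Set.subset_union_right.trans
        (sub_closure M (Set.union_subset x.2.1.subset_ground y.2.1.subset_ground))
  uniq_line := by
    intro l hl l' hl' x y hxy hx hy hx' hy'
    rw [Finset.mem_image] at hl hl'
    obtain ⟨F, hF, rfl⟩ := hl
    obtain ⟨F', hF', rfl⟩ := hl'
    rw [mem_flats] at hF hF'
    rw [mem_pts] at hx hy hx' hy'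
    have hxy' : (x : Set α) ≠ y := fun h => hxy (Subtype.ext h)
    have hr := rk_pair M x.2.1 y.2.1 x.2.2 y.2.2 hxy'
    have e1 : M.closure (x ∪ y) = F := flat_eq M (M.isFlat_closure _) hF.1
      (closure_sub M hF.1 (Set.union_subset hx hy)) (by omega)
    have e2 : M.closure (x ∪ y) = F' := flat_eq M (M.isFlat_closure _) hF'.1
      (closure_sub M hF'.1 (Set.union_subset hx' hy')) (by omega)
    rw [← e1, e2]
  ex_plane := by
    intro l hl x hx
    rw [Finset.mem_image] at hl
    obtain ⟨F, hF, rfl⟩ := hl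
    rw [mem_flats] at hF
    rw [mem_pts] at hx
    have hsub := sub_closure M (Set.union_subset hF.1.subset_ground x.2.1.subset_ground)
    refine ⟨pts M (M.closure (F ∪ x)), ?_, ?_, ?_⟩
    · rw [Finset.mem_image]
      exact ⟨_, (mem_flats M).mpr ⟨M.isFlat_closure _, rk_join M hF.1 x.2.1 hF.2 x.2.2 hx⟩, rfl⟩
    · rw [pts_sub_iff M hF.1 (M.isFlat_closure _)]
      exact Set.subset_union_left.trans hsub
    · rw [mem_pts]
      exact Set.subset_union_right.trans hsub
  uniq_plane := by
    intro l hl x hx h hh h' hh' hlh hxh hlh' hxh'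
    rw [Finset.mem_image] at hl hh hh'
    obtain ⟨F, hF, rfl⟩ := hl
    obtain ⟨K, hK, rfl⟩ := hh
    obtain ⟨K', hK', rfl⟩ := hh'
    rw [mem_flats] at hF hK hK'
    rw [mem_pts] at hx hxh hxh'
    rw [pts_sub_iff M hF.1 hK.1] at hlh
    rw [pts_sub_iff M hF.1 hK'.1] at hlh'
    have hr := rk_join M hF.1 x.2.1 hF.2 x.2.2 hx
    have e1 : M.closure (F ∪ x) = K := flat_eq M (M.isFlat_closure _) hK.1
      (closure_sub M hK.1 (Set.union_subset hlh hxh)) (by omega)
    have e2 : M.closure (F ∪ x) = K' := flat_eq M (M.isFlat_closure _) hK'.1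
      (closure_sub M hK'.1 (Set.union_subset hlh' hxh')) (by omega)
    rw [← e1, e2]
  closed := by
    intro h hh l hl x y hxy hx hy hxh hyh
    rw [Finset.mem_image] at hl hh
    obtain ⟨F, hF, rfl⟩ := hl
    obtain ⟨K, hK, rfl⟩ := hh
    rw [mem_flats] at hF hK
    rw [mem_pts] at hx hy hxh hyh
    have hxy' : (x : Set α) ≠ y := fun h => hxy (Subtype.ext h)
    have hr := rk_pair M x.2.1 y.2.1 x.2.2 y.2.2 hxy'
    have e1 : M.closure (x ∪ y) = F := flat_eq M (M.isFlat_closure _) hF.1
      (closure_sub M hF.1 (Set.union_subset hx hy)) (by omega)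
    rw [pts_sub_iff M hF.1 hK.1, ← e1]
    exact closure_sub M hK.1 (Set.union_subset hxh hyh)
  nondeg := by
    intro h hh
    rw [Finset.mem_image] at hh
    obtain ⟨K, hK, rfl⟩ := hh
    rw [mem_flats] at hK
    have h0 : ¬ K ⊆ M.closure ∅ := by
      intro h
      have := rkn_mono M h
      rw [rkn_closure] at this
      have h2 : rkn M (∅ : Set α) = 0 := by rw [← rkn_eq_iff]; simp
      omega
    obtain ⟨p, hp, hp1, hpK, -⟩ := flat_pt M hK.1 (M.isFlat_closure _) h0
    have h1 : ¬ K ⊆ p := by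
      intro h
      have := rkn_mono M h
      omega
    obtain ⟨q, hq, hq1, hqK, hqp⟩ := flat_pt M hK.1 hp h1
    have hne : p ≠ q := by
      intro h; apply hqp; rw [h]
    have hr := rk_pair M hp hq hp1 hq1 hne
    have h2 : ¬ K ⊆ M.closure (p ∪ q) := by
      intro h
      have := rkn_mono M h
      omega
    obtain ⟨x, hx, hx1, hxK, hxl⟩ := flat_pt M hK.1 (M.isFlat_closure _) h2
    refine ⟨pts M (M.closure (p ∪ q)), ?_, ?_, ⟨x, hx, hx1⟩, ?_, ?_⟩
    · rw [Finset.mem_image]
      exact ⟨_, (mem_flats M).mpr ⟨M.isFlat_closure _, hr⟩, rfl⟩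
    · rw [pts_sub_iff M (M.isFlat_closure _) hK.1]
      exact closure_sub M hK.1 (Set.union_subset hpK hqK)
    · rw [mem_pts]; exact hxK
    · rw [mem_pts]; exact hxl

lemma pts_inj (k : ℕ) : Set.InjOn (pts M) (flats M k : Set (Set α)) := by
  intro F hF F' hF' h
  rw [Finset.mem_coe, mem_flats] at hF hF'
  apply Set.Subset.antisymm
  · rw [← pts_sub_iff M hF.1 hF'.1, h]
  · rw [← pts_sub_iff M hF'.1 hF.1, h]

lemma card_L : (toGeo M).L.card = (flats M 2).card := by
  classical
  exact Finset.card_image_of_injOn (pts_inj M 2)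

lemma card_H : (toGeo M).H.card = (flats M 3).card := by
  classical
  exact Finset.card_image_of_injOn (pts_inj M 3)

lemma card_flats (k : ℕ) : {F : Set α | M.IsFlat F ∧ M.eRk F = (k : ℕ∞)}.ncard =
    (flats M k).card := by
  have : {F : Set α | M.IsFlat F ∧ M.eRk F = (k : ℕ∞)} = (flats M k : Set (Set α)) := by
    ext F
    rw [Finset.mem_coe, mem_flats, Set.mem_ofPred_eq, rkn_eq_iff]
  rw [this, Set.ncard_coe_finset]

lemma card_pt : Fintype.card (Pt M) = (flats M 1).card := by
  classical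
  rw [← Nat.card_eq_fintype_card]
  have : Nat.card (Pt M) = ({F : Set α | M.IsFlat F ∧ rkn M F = 1}).ncard := rfl
  rw [this]
  unfold flats
  rw [Set.ncard_eq_toFinset_card _ (Set.toFinite _)]

/-- the rank 1-2-3 inequality -/
theorem flats_main :
    ((flats M 1).card : ℝ) * ((flats M 3).card : ℝ) ≤ 9240 * ((flats M 2).card : ℝ) ^ 2 := by
  rcases Nat.eq_zero_or_pos (flats M 3).card with h0 | hpos
  · rw [h0]; simp only [Nat.cast_zero, mul_zero]; positivity
  · -- at least three points
    obtain ⟨K, hK⟩ := Finset.card_pos.mp hpos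
    have hKG : pts M K ∈ (toGeo M).H := Finset.mem_image.mpr ⟨K, hK, rfl⟩
    obtain ⟨l, hl, hlh, x, hx, hxl⟩ := (toGeo M).nondeg _ hKG
    have h2 := (toGeo M).two_le l hl
    have h3 : 3 ≤ Fintype.card (Pt M) := by
      have h4 : (insert x l).card = l.card + 1 := card_insert_of_notMem hxl
      have h5 := card_le_univ (insert x l)
      omega
    have hm := (toGeo M).main (by omega)
    rw [card_L, card_H, card_pt] at hm
    rw [card_pt] at h3
    have h3' : (3 : ℝ) ≤ ((flats M 1).card : ℝ) := by exact_mod_cast h3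
    have h4 : (0 : ℝ) ≤ ((flats M 3).card : ℝ) := by positivity
    have h5 : ((flats M 1).card : ℝ) ≤ (3 / 2) * (((flats M 1).card : ℝ) - 1) := by linarith
    have h6 := mul_le_mul_of_nonneg_right h5 h4
    linarith

/-- the rank 1-2-3 inequality for the sets of flats -/
theorem flats_ncard :
    {F : Set α | M.IsFlat F ∧ M.eRk F = 1}.ncard * {F : Set α | M.IsFlat F ∧ M.eRk F = 3}.ncard
      ≤ 9240 * {F : Set α | M.IsFlat F ∧ M.eRk F = 2}.ncard ^ 2 := by
  have h1 := card_flats M 1
  have h2 := card_flats M 2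
  have h3 := card_flats M 3
  rw [Nat.cast_one] at h1
  rw [Nat.cast_ofNat] at h2 h3
  rw [h1, h2, h3]
  have := flats_main M
  exact_mod_cast this

end

end Pool.Agent.Helper123.PLP
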