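import Mathlib
import Pool.Agent.Helper123.PLP.Main

namespace Pool.Agent.Helper123.PLP

open Finset

set_option linter.unusedSectionVars false

section

abbrev E3 := EuclideanSpace ℝ (Fin 3)

lemma span_eq_of_indep {n : ℕ} (p q : Fin (n + 1) → E3) (hp : AffineIndependent ℝ p)
    (hq : AffineIndependent ℝ q) (h : ∀ i, q i ∈ affineSpan ℝ (Set.range p)) :
    affineSpan ℝ (Set.range q) = affineSpan ℝ (Set.range p) := by
  apply hq.affineSpan_eq_of_le_of_card_eq_finrank_add_one
  · rw [affineSpan_le]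
    rintro _ ⟨i, rfl⟩
    exact h i
  · rw [direction_affineSpan, hp.finrank_vectorSpan (n := n) (by simp)]
    simp

lemma range2 (x y : E3) : Set.range ![x, y] = ({x, y} : Set E3) := by
  simp [Matrix.range_cons, Matrix.range_empty, Set.pair_comm]

lemma range3 (x y z : E3) : Set.range ![x, y, z] = ({x, y, z} : Set E3) := by
  simp_rw [Matrix.range_cons, Matrix.range_empty, Set.singleton_union, insert_empty_eq]

lemma line_eq {a b x y : E3} (hab : a ≠ b) (hxy : x ≠ y)
    (hx : x ∈ affineSpan ℝ ({a, b} : Set E3)) (hy : y ∈ affineSpan ℝ ({a, b} : Set E3)) :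
    affineSpan ℝ ({x, y} : Set E3) = affineSpan ℝ ({a, b} : Set E3) := by
  have := span_eq_of_indep ![a, b] ![x, y] (affineIndependent_of_ne ℝ hab)
    (affineIndependent_of_ne ℝ hxy) (by
      rw [range2]; intro i; fin_cases i
      · exact hx
      · exact hy)
  rwa [range2, range2] at this

lemma plane_eq {a b c x y z : E3} (habc : ¬ Collinear ℝ ({a, b, c} : Set E3))
    (hxyz : ¬ Collinear ℝ ({x, y, z} : Set E3))
    (hx : x ∈ affineSpan ℝ ({a, b, c} : Set E3)) (hy : y ∈ affineSpan ℝ ({a, b, c} : Set E3))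
    (hz : z ∈ affineSpan ℝ ({a, b, c} : Set E3)) :
    affineSpan ℝ ({x, y, z} : Set E3) = affineSpan ℝ ({a, b, c} : Set E3) := by
  have := span_eq_of_indep ![a, b, c] ![x, y, z] (affineIndependent_iff_not_collinear_set.mpr habc)
    (affineIndependent_iff_not_collinear_set.mpr hxyz) (by
      rw [range3]; intro i; fin_cases i
      · exact hx
      · exact hy
      · exact hz)
  rwa [range3, range3] at this

/-- if `z` is off the line `ab`, the three points are not collinear -/
lemma not_col {a b z : E3} (hab : a ≠ b) (hz : z ∉ affineSpan ℝ ({a, b} : Set E3)) :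
    ¬ Collinear ℝ ({a, b, z} : Set E3) := by
  intro h
  exact hz (h.mem_affineSpan_of_mem_of_ne (by simp) (by simp) (by simp) hab)

/-- the lines determined by `S` -/
def linesOf (S : Finset E3) : Set (AffineSubspace ℝ E3) :=
  {L | ∃ x ∈ S, ∃ y ∈ S, x ≠ y ∧ L = affineSpan ℝ ({x, y} : Set E3)}

/-- the planes determined by `S` -/
def planesOf (S : Finset E3) : Set (AffineSubspace ℝ E3) :=
  {P | ∃ x ∈ S, ∃ y ∈ S, ∃ z ∈ S, ¬ Collinear ℝ ({x, y, z} : Set E3) ∧
    P = affineSpan ℝ ({x, y, z} : Set E3)}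

lemma linesOf_finite (S : Finset E3) : (linesOf S).Finite := by
  apply Set.Finite.subset ((S ×ˢ S).finite_toSet.image
    (fun p => affineSpan ℝ ({p.1, p.2} : Set E3)))
  rintro L ⟨x, hx, y, hy, _, rfl⟩
  exact ⟨(x, y), by simp [hx, hy], rfl⟩

lemma planesOf_finite (S : Finset E3) : (planesOf S).Finite := by
  apply Set.Finite.subset ((S ×ˢ S ×ˢ S).finite_toSet.image
    (fun p => affineSpan ℝ ({p.1, p.2.1, p.2.2} : Set E3)))
  rintro L ⟨x, hx, y, hy, z, hz, _, rfl⟩
  exact ⟨(x, y, z), by simp [hx, hy, hz], rfl⟩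

variable (S : Finset E3)

open Classical in
/-- the points of `S` in an affine subspace -/
noncomputable def ptsA (F : AffineSubspace ℝ E3) : Finset {x : E3 // x ∈ S} :=
  univ.filter (fun p => (p : E3) ∈ F)

lemma mem_ptsA {F : AffineSubspace ℝ E3} {p : {x : E3 // x ∈ S}} :
    p ∈ ptsA S F ↔ (p : E3) ∈ F := by
  unfold ptsA; simp

lemma ptsA_mono {F F' : AffineSubspace ℝ E3} (h : F ≤ F') : ptsA S F ⊆ ptsA S F' := by
  intro p hp
  rw [mem_ptsA] at hp ⊢
  exact h hp

/-- a line with two points inside a plane lies in the plane -/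
lemma line_le {x y : E3} {F : AffineSubspace ℝ E3} (hx : x ∈ F) (hy : y ∈ F) :
    affineSpan ℝ ({x, y} : Set E3) ≤ F := by
  rw [affineSpan_le]
  intro w hw
  rcases hw with rfl | hw
  · exact hx
  · rw [Set.mem_singleton_iff] at hw; rw [hw]; exact hy

open Classical in
/-- a finite set of points in space as a space with lines and planes -/
noncomputable def r3Geo : Geo {x : E3 // x ∈ S} where
  L := (linesOf_finite S).toFinset.image (ptsA S)
  H := (planesOf_finite S).toFinset.image (ptsA S)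
  two_le := by
    intro l hl
    rw [Finset.mem_image] at hl
    obtain ⟨F, hF, rfl⟩ := hl
    rw [Set.Finite.mem_toFinset] at hF
    obtain ⟨x, hx, y, hy, hxy, rfl⟩ := hF
    have : 1 < (ptsA S (affineSpan ℝ ({x, y} : Set E3))).card := by
      rw [Finset.one_lt_card]
      refine ⟨⟨x, hx⟩, ?_, ⟨y, hy⟩, ?_, ?_⟩
      · rw [mem_ptsA]; exact mem_affineSpan ℝ (by simp)
      · rw [mem_ptsA]; exact mem_affineSpan ℝ (by simp)
      · intro h; exact hxy (congrArg Subtype.val h)
    omega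
  ex_line := by
    intro x y hxy
    have hxy' : (x : E3) ≠ y := fun h => hxy (Subtype.ext h)
    refine ⟨ptsA S (affineSpan ℝ ({(x : E3), (y : E3)} : Set E3)), ?_, ?_, ?_⟩
    · rw [Finset.mem_image]
      refine ⟨_, ?_, rfl⟩
      rw [Set.Finite.mem_toFinset]
      exact ⟨x, x.2, y, y.2, hxy', rfl⟩
    · rw [mem_ptsA]; exact mem_affineSpan ℝ (by simp)
    · rw [mem_ptsA]; exact mem_affineSpan ℝ (by simp)
  uniq_line := by
    intro l hl l' hl' x y hxy hx hy hx' hy'
    rw [Finset.mem_image] at hl hl'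
    obtain ⟨F, hF, rfl⟩ := hl
    obtain ⟨F', hF', rfl⟩ := hl'
    rw [Set.Finite.mem_toFinset] at hF hF'
    obtain ⟨a, ha, b, hb, hab, rfl⟩ := hF
    obtain ⟨a', ha', b', hb', hab', rfl⟩ := hF'
    rw [mem_ptsA] at hx hy hx' hy'
    have hxy' : (x : E3) ≠ y := fun h => hxy (Subtype.ext h)
    rw [← line_eq hab hxy' hx hy, ← line_eq hab' hxy' hx' hy']
  ex_plane := by
    intro l hl x hx
    rw [Finset.mem_image] at hl
    obtain ⟨F, hF, rfl⟩ := hl
    rw [Set.Finite.mem_toFinset] at hF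
    obtain ⟨a, ha, b, hb, hab, rfl⟩ := hF
    rw [mem_ptsA] at hx
    refine ⟨ptsA S (affineSpan ℝ ({a, b, (x : E3)} : Set E3)), ?_, ?_, ?_⟩
    · rw [Finset.mem_image]
      refine ⟨_, ?_, rfl⟩
      rw [Set.Finite.mem_toFinset]
      exact ⟨a, ha, b, hb, x, x.2, not_col hab hx, rfl⟩
    · apply ptsA_mono
      exact line_le (mem_affineSpan ℝ (by simp)) (mem_affineSpan ℝ (by simp))
    · rw [mem_ptsA]; exact mem_affineSpan ℝ (by simp)
  uniq_plane := by
    intro l hl x hx h hh h' hh' hlh hxh hlh' hxh'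
    rw [Finset.mem_image] at hl hh hh'
    obtain ⟨F, hF, rfl⟩ := hl
    obtain ⟨K, hK, rfl⟩ := hh
    obtain ⟨K', hK', rfl⟩ := hh'
    rw [Set.Finite.mem_toFinset] at hF hK hK'
    obtain ⟨a, ha, b, hb, hab, rfl⟩ := hF
    obtain ⟨p, hp, q, hq, r, hr, hpqr, rfl⟩ := hK
    obtain ⟨p', hp', q', hq', r', hr', hpqr', rfl⟩ := hK'
    have ha0 : (⟨a, ha⟩ : {x : E3 // x ∈ S}) ∈ ptsA S (affineSpan ℝ ({a, b} : Set E3)) := by
      rw [mem_ptsA]; exact mem_affineSpan ℝ (by simp)
    have hb0 : (⟨b, hb⟩ : {x : E3 // x ∈ S}) ∈ ptsA S (affineSpan ℝ ({a, b} : Set E3)) := by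
      rw [mem_ptsA]; exact mem_affineSpan ℝ (by simp)
    have h1 := (mem_ptsA S).mp (hlh ha0)
    have h2 := (mem_ptsA S).mp (hlh hb0)
    have h3 := (mem_ptsA S).mp (hlh' ha0)
    have h4 := (mem_ptsA S).mp (hlh' hb0)
    rw [mem_ptsA] at hx hxh hxh'
    have hn := not_col hab hx
    rw [← plane_eq hpqr hn h1 h2 hxh, ← plane_eq hpqr' hn h3 h4 hxh']
  closed := by
    intro h hh l hl x y hxy hx hy hxh hyh
    rw [Finset.mem_image] at hl hh
    obtain ⟨F, hF, rfl⟩ := hl
    obtain ⟨K, hK, rfl⟩ := hh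
    rw [Set.Finite.mem_toFinset] at hF
    obtain ⟨a, ha, b, hb, hab, rfl⟩ := hF
    rw [mem_ptsA] at hx hy hxh hyh
    have hxy' : (x : E3) ≠ y := fun h => hxy (Subtype.ext h)
    rw [← line_eq hab hxy' hx hy]
    exact ptsA_mono S (line_le hxh hyh)
  nondeg := by
    intro h hh
    rw [Finset.mem_image] at hh
    obtain ⟨K, hK, rfl⟩ := hh
    rw [Set.Finite.mem_toFinset] at hK
    obtain ⟨p, hp, q, hq, r, hr, hpqr, rfl⟩ := hK
    have hpq : p ≠ q := by
      rintro rfl
      apply hpqr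
      simp only [Set.insert_eq_of_mem, Set.mem_insert_iff, true_or]
      exact collinear_pair ℝ p r
    have hrl : r ∉ affineSpan ℝ ({p, q} : Set E3) := by
      intro hr'
      apply hpqr
      have := collinear_insert_of_mem_affineSpan_pair hr'
      have e : ({p, q, r} : Set E3) = {r, p, q} := by
        ext w; simp only [Set.mem_insert_iff, Set.mem_singleton_iff]; tauto
      rw [e]; exact this
    refine ⟨ptsA S (affineSpan ℝ ({p, q} : Set E3)), ?_, ?_, ⟨r, hr⟩, ?_, ?_⟩
    · rw [Finset.mem_image]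
      refine ⟨_, ?_, rfl⟩
      rw [Set.Finite.mem_toFinset]
      exact ⟨p, hp, q, hq, hpq, rfl⟩
    · apply ptsA_mono
      exact line_le (mem_affineSpan ℝ (by simp)) (mem_affineSpan ℝ (by simp))
    · rw [mem_ptsA]; exact mem_affineSpan ℝ (by simp)
    · rw [mem_ptsA]; exact hrl

lemma card_LR : (r3Geo S).L.card ≤ (linesOf S).ncard := by
  classical
  rw [Set.ncard_eq_toFinset_card _ (linesOf_finite S)]
  exact Finset.card_image_le

lemma card_HR : (r3Geo S).H.card = (planesOf S).ncard := by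
  classical
  rw [Set.ncard_eq_toFinset_card _ (planesOf_finite S)]
  apply Finset.card_image_of_injOn
  intro F hF F' hF' h
  rw [Finset.mem_coe, Set.Finite.mem_toFinset] at hF hF'
  obtain ⟨p, hp, q, hq, r, hr, hpqr, rfl⟩ := hF
  obtain ⟨p', hp', q', hq', r', hr', hpqr', rfl⟩ := hF'
  have key : ∀ w : E3, w ∈ S → w ∈ ({p, q, r} : Set E3) →
      w ∈ affineSpan ℝ ({p', q', r'} : Set E3) := by
    intro w hw hw'
    have h1 : (⟨w, hw⟩ : {x : E3 // x ∈ S}) ∈ ptsA S (affineSpan ℝ ({p, q, r} : Set E3)) := by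
      rw [mem_ptsA]; exact mem_affineSpan ℝ hw'
    change ptsA S (affineSpan ℝ ({p, q, r} : Set E3)) =
      ptsA S (affineSpan ℝ ({p', q', r'} : Set E3)) at h
    rw [h] at h1
    exact (mem_ptsA S).mp h1
  exact plane_eq hpqr' hpqr (key p hp (by simp)) (key q hq (by simp)) (key r hr (by simp))

theorem r3_main : S.card * (planesOf S).ncard ≤ 9240 * (linesOf S).ncard ^ 2 := by
  have hreal : (S.card : ℝ) * ((planesOf S).ncard : ℝ) ≤ 9240 * ((linesOf S).ncard : ℝ) ^ 2 := by
    rcases Nat.eq_zero_or_pos (r3Geo S).H.card with h0 | hpos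
    · rw [← card_HR, h0]; simp only [Nat.cast_zero, mul_zero]; positivity
    · obtain ⟨K, hK⟩ := Finset.card_pos.mp hpos
      obtain ⟨l, hl, hlh, x, hx, hxl⟩ := (r3Geo S).nondeg _ hK
      have h2 := (r3Geo S).two_le l hl
      have hcard : Fintype.card {x : E3 // x ∈ S} = S.card := Fintype.card_coe S
      have h3 : 3 ≤ Fintype.card {x : E3 // x ∈ S} := by
        have h4 : (insert x l).card = l.card + 1 := card_insert_of_notMem hxl
        have h5 := card_le_univ (insert x l)
        omega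
      have hm := (r3Geo S).main (by omega)
      rw [card_HR, hcard] at hm
      rw [hcard] at h3
      have h3' : (3 : ℝ) ≤ (S.card : ℝ) := by exact_mod_cast h3
      have h4 : (0 : ℝ) ≤ ((planesOf S).ncard : ℝ) := by positivity
      have h5 : (S.card : ℝ) ≤ (3 / 2) * ((S.card : ℝ) - 1) := by linarith
      have h6 := mul_le_mul_of_nonneg_right h5 h4
      have h7 : ((r3Geo S).L.card : ℝ) ≤ ((linesOf S).ncard : ℝ) := by
        exact_mod_cast card_LR S
      have h8 : ((r3Geo S).L.card : ℝ) ^ 2 ≤ ((linesOf S).ncard : ℝ) ^ 2 :=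
        pow_le_pow_left₀ (by positivity) h7 2
      linarith
  exact_mod_cast hreal

end

end Pool.Agent.Helper123.PLP
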